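import Pool.Agent.Lib.MP_721660_al.Hs.NilB
import Pool.Agent.Lib.MP_721660_al.CD.St

set_option autoImplicit false

namespace Pool.Agent.Lib.MP_721660_al.Hs
open Ht

namespace GrpFx

/-- `k` successive commutators with elements of `H` kill `x`. -/
def Zc {G : Type} [Group G] (H : Subgroup G) : ℕ → G → Prop
  | 0, x => x = 1
  | k + 1, x => ∀ y ∈ H, Zc H k (x * y * x⁻¹ * y⁻¹)

theorem mem_iff {G : Type} [Group G] (H : Subgroup G) (k : ℕ) :
    ∀ x : H, x ∈ Subgroup.upperCentralSeries H k ↔ Zc H k (x : G) := by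
  induction k with
  | zero =>
    intro x
    rw [Subgroup.upperCentralSeries_zero, Subgroup.mem_bot]
    exact Subtype.ext_iff
  | succ k ih =>
    intro x
    rw [Subgroup.mem_upperCentralSeries_succ_iff]
    constructor
    · intro h y hy
      exact (ih _).1 (h ⟨y, hy⟩)
    · intro h y
      exact (ih _).2 (h y y.2)

theorem zc_map {G Q : Type} [Group G] [Group Q] (f : G →* Q) (H : Subgroup G) (k : ℕ) :
    ∀ x : G, Zc H k x → Zc (H.map f) k (f x) := by
  induction k with
  | zero =>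
    intro x hx
    have hx' : x = 1 := hx
    show f x = 1
    rw [hx', map_one]
  | succ k ih =>
    rintro x hx _ ⟨y, hy, rfl⟩
    have h := ih _ (hx y hy)
    simpa only [map_mul, map_inv] using h

theorem nil_neg {Q M : Type} [Group Q] [AddCommGroup M] (ρ : Pool.Agent.Cdim.Act Q M)
    (H : Set Q) (k : ℕ) :
    ∀ x : M, Nil (fun g (y : M) => ρ g y) H {0} k x → Nil (fun g (y : M) => ρ g y) H {0} k (-x) := by
  induction k with
  | zero =>
    intro x hx
    have hx' : x = 0 := hx
    show -x = 0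
    rw [hx', neg_zero]
  | succ k ih =>
    intro x hx g hg
    have h := ih _ (hx g hg)
    have e : -(ρ g x - x) = ρ g (-x) - -x := by rw [map_neg]; abel
    rw [e] at h
    exact h

theorem zc_iff_nil {G Q M : Type} [Group G] [Group Q] [AddCommGroup M] (f : G →* Q)
    (ρ : Pool.Agent.Cdim.Act Q M) (ι : Multiplicative M →* G) (hι : Function.Injective ι)
    (hc : ∀ (g : G) (m : M),
      ι (Multiplicative.ofAdd (ρ (f g) m)) = g * ι (Multiplicative.ofAdd m) * g⁻¹)
    (H : Subgroup G) (k : ℕ) : ∀ m : M, Zc H k (ι (Multiplicative.ofAdd m)) ↔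
      Nil (fun g (y : M) => ρ g y) (H.map f : Set Q) {0} k m := by
  have key : ∀ (y : G) (m : M), ι (Multiplicative.ofAdd m) * y * (ι (Multiplicative.ofAdd m))⁻¹ * y⁻¹
      = ι (Multiplicative.ofAdd (-(ρ (f y) m - m))) := by
    intro y m
    rw [neg_sub, sub_eq_add_neg, ofAdd_add, map_mul, ofAdd_neg, map_inv, hc]
    group
  induction k with
  | zero =>
    intro m
    show ι (Multiplicative.ofAdd m) = 1 ↔ m = 0
    rw [← map_one ι, hι.eq_iff]
    exact ofAdd_eq_one
  | succ k ih =>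
    intro m
    constructor
    · rintro h _ ⟨y, hy, rfl⟩
      have h1 := h y hy
      rw [key, ih] at h1
      have h2 := nil_neg ρ _ k _ h1
      rw [neg_neg] at h2
      exact h2
    · intro h y hy
      rw [key, ih]
      exact nil_neg ρ _ k _ (h (f y) ⟨y, hy, rfl⟩)

end GrpFx

theorem gstu_step (G Q M : Type) [Group G] [Group Q] [AddCommGroup M] (f : G →* Q)
    (ρ : Pool.Agent.Cdim.Act Q M) (ι : Multiplicative M →* G) (hι : Function.Injective ι)
    (hr : ι.range = f.ker)
    (hc : ∀ (g : G) (m : M),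
      ι (Multiplicative.ofAdd (ρ (f g) m)) = g * ι (Multiplicative.ofAdd m) * g⁻¹)
    (h1 : Stu (fun g (y : M) => ρ g y)) (h2 : GStu Q) : GStu G := by
  obtain ⟨hM, h1⟩ := h1
  obtain ⟨hQ, h2⟩ := h2
  refine ⟨hM + hQ, fun H n x hx => ?_⟩
  have main : ∀ (c : ℕ) (x : G), (∃ n, GrpFx.Zc H n x) → GrpFx.Zc (H.map f) c (f x) →
      GrpFx.Zc H (hM + c) x := by
    intro c
    induction c with
    | zero =>
      rintro x ⟨n, hn⟩ hx
      have hx' : x ∈ ι.range := by rw [hr]; exact hx
      obtain ⟨m, rfl⟩ := hx'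
      exact (GrpFx.zc_iff_nil f ρ ι hι hc H hM m.toAdd).2
        (h1 (H.map f) n _ ((GrpFx.zc_iff_nil f ρ ι hι hc H n m.toAdd).1 hn))
    | succ c ih =>
      rintro x ⟨n, hn⟩ hx y hy
      refine ih _ ?_ ?_
      · cases n with
        | zero =>
          have hx1 : x = 1 := hn
          refine ⟨0, ?_⟩
          show x * y * x⁻¹ * y⁻¹ = 1
          rw [hx1]
          group
        | succ n => exact ⟨n, hn y hy⟩
      · have h := hx (f y) ⟨y, hy, rfl⟩
        simpa only [map_mul, map_inv] using h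
  have hz := (GrpFx.mem_iff H n x).1 hx
  have hq := (GrpFx.mem_iff (H.map f) n ⟨f x, x, x.2, rfl⟩).2 (GrpFx.zc_map f H n _ hz)
  exact (GrpFx.mem_iff H _ x).2
    (main hQ x ⟨n, hz⟩ ((GrpFx.mem_iff (H.map f) hQ _).1 (h2 (H.map f) n hq)))

end Pool.Agent.Lib.MP_721660_al.Hs
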