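import Pool.Agent.Lib.MP_721660_al.Hs.ModZ
import Pool.Agent.Lib.MP_721660_al.Hs.Grp
import Pool.Agent.Lib.MP_721660_al.CD.All
import Pool.Agent.Lib.MP_721660_al.Ht.Ser3

set_option autoImplicit false

namespace Pool.Agent.Lib.MP_721660_al.Hs
open Ht

namespace TopFx

open Pool.Agent.Cdim in
theorem step (hM : ∀ n, MainF n) (G Q : Type) [Group G] [Group Q] (f : G →* Q)
    (hG : Group.FG G) (hf : Function.Surjective f)
    (hA : ∀ a ∈ f.ker, ∀ b ∈ f.ker, Commute a b) (hs : Group.IsSolvable Q)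
    (hm : ∀ H : Subgroup Q, H.FG) (hQ : GStu Q) : GStu G := by
  obtain ⟨M, _, ρ, ι, hinj, hr, hc⟩ := model_st G Q f hf hA
  have hpoly := poly_st Q hs hm
  obtain ⟨s, hs0⟩ := fng_st pmax_st G Q f hG hf hpoly
  obtain ⟨s', hs'⟩ := GErx.span_top f ρ ι hinj hr hc s hs0
  have hN : Noeth ρ := by
    intro W hW hmono
    refine hall_st Q M ρ ⊤ hpoly s' W (fun i g _ m hm => hW i g m hm) (fun i => ?_) hmono
    rw [hs']
    exact le_top
  obtain ⟨n, hn⟩ := poly_of_pc Q hs hm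
  exact gstu_step G Q M f ρ ι hinj hr hc (stu_all hM Q M hn ρ hN) hQ

theorem quot (hM : ∀ n, MainF n) : ∀ (d : ℕ) (Q : Type) [Group Q], derivedSeries Q d = ⊥ →
    (∀ H : Subgroup Q, H.FG) → GStu Q := by
  intro d
  induction d with
  | zero =>
    intro Q _ h _
    refine ⟨0, fun H n x _ => ?_⟩
    have hx : (x : Q) ∈ derivedSeries Q 0 := Subgroup.mem_top _
    rw [h, Subgroup.mem_bot] at hx
    have h1 : x = 1 := Subtype.ext hx
    rw [h1]
    exact Subgroup.one_mem _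
  | succ d ih =>
    intro Q _ h hQ
    have hs := QuotientGroup.mk'_surjective (derivedSeries Q d)
    have hd : derivedSeries (Q ⧸ derivedSeries Q d) d = ⊥ := by
      rw [← map_derivedSeries_eq hs, Subgroup.map_eq_bot_iff, QuotientGroup.ker_mk']
    have hm : ∀ H : Subgroup (Q ⧸ derivedSeries Q d), H.FG :=
      Pool.Agent.Cdim.pmax_st.2.2 _ _ _ hs hQ
    refine step hM Q _ (QuotientGroup.mk' (derivedSeries Q d)) (Group.fg_def.2 (hQ ⊤)) hs ?_
      ⟨⟨d, hd⟩⟩ hm (ih _ hd hm)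
    rw [QuotientGroup.ker_mk']
    intro a ha b hb
    have h1 := Subgroup.commutator_mem_commutator ha hb
    rw [← derivedSeries_succ, h, Subgroup.mem_bot] at h1
    exact commutatorElement_eq_one_iff_commute.1 h1

end TopFx

theorem gstu_all (hM : ∀ n, MainF n) (G Q : Type) [Group G] [Group Q] (f : G →* Q)
    (hG : Group.FG G) (hf : Function.Surjective f)
    (hA : ∀ a ∈ f.ker, ∀ b ∈ f.ker, Commute a b) (hs : Group.IsSolvable Q)
    (hm : ∀ H : Subgroup Q, H.FG) : GStu G := by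
  obtain ⟨d, hd⟩ := hs.solvable
  exact TopFx.step hM G Q f hG hf hA hs hm (TopFx.quot hM d Q hd hm)

end Pool.Agent.Lib.MP_721660_al.Hs
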