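import Pool.Agent.Lib.MP_721660_al.Hs.RadMap
import Pool.Agent.Lib.MP_721660_al.Ht.Cl3

set_option autoImplicit false

namespace Pool.Agent.Lib.MP_721660_al.Hs
open Ht

namespace Cl3Fx
open Ht.Cl3x

variable {D T M ι : Type} [DivisionRing D] [Ring T] [AddCommGroup M] [Module D M] [Module T M]
  (j : D →+* T) (hc : ∀ (d : D) (x : M), d • x = j d • x) {W : Submodule T M}
  [IsSimpleModule T W] {D2 : Type} [DivisionRing D2] [Module D2 (W →ₗ[T] M)]
  {τ : ι → (M ≃ₗ[ℤ] M)} {τ2 : ι → ((W →ₗ[T] M) ≃ₗ[ℤ] (W →ₗ[T] M))}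

theorem step (h1 : EndSc W D2) (g : Finset W)
    (hg : ∀ (f : W →ₗ[T] M) (Z : Submodule D M), (∀ w ∈ g, f w ∈ Z) → ∀ w, f w ∈ Z)
    (hp : ∀ i, Pair (τ i) (τ2 i)) (ρ : ℕ) (Y : Submodule D2 (W →ₗ[T] M)) :
    radF (ρ * g.card) τ (toD j hc (mY (Y : Set (W →ₗ[T] M)))) ≤
      toD j hc (mY ((radF ρ τ2 Y : Submodule D2 (W →ₗ[T] M)) : Set (W →ₗ[T] M))) := by
  intro x hx
  obtain ⟨hx0, hx1⟩ := mem_radF.1 hx
  let U : Submodule T M := mY (Y : Set (W →ₗ[T] M)) ⊓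
    sInf {V | ∃ Y' : Submodule D2 (W →ₗ[T] M), StbF τ2 Y' ∧ Y' ≤ Y ∧ Cod ρ Y' Y ∧
      V = mY (Y' : Set (W →ₗ[T] M))}
  have hxU : x ∈ U := by
    refine Submodule.mem_inf.2 ⟨hx0, Submodule.mem_sInf.2 ?_⟩
    rintro V ⟨Y', ha, hb, hd, rfl⟩
    exact hx1 _ (fun i => stb_m j hc (hp i) (ha i)) (fun y hy => mY_mono hb hy)
      (cod_m j hc h1 g hg hd)
  have h2 := le_mY_of_le _ U inf_le_left hxU
  refine mY_mono ?_ h2
  intro f hf
  have hf' : LinearMap.range f ≤ U := hf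
  refine mem_radF.2 ⟨mem_of_range_le h1 Y f (hf'.trans inf_le_left), fun Y' ha hb hd => ?_⟩
  exact mem_of_range_le h1 Y' f (hf'.trans (inf_le_right.trans (sInf_le ⟨Y', ha, hb, hd, rfl⟩)))

theorem iter (h1 : EndSc W D2) (g : Finset W)
    (hg : ∀ (f : W →ₗ[T] M) (Z : Submodule D M), (∀ w ∈ g, f w ∈ Z) → ∀ w, f w ∈ Z)
    (hp : ∀ i, Pair (τ i) (τ2 i)) (ρ : ℕ) (Y : Submodule D2 (W →ₗ[T] M)) {V : Submodule D M}
    (hV : StbF τ V) (hVY : V ≤ toD j hc (mY (Y : Set (W →ₗ[T] M)))) (l : ℕ) :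
    (radF (ρ * g.card) τ)^[l] V ≤
      toD j hc (mY (((radF ρ τ2)^[l] Y : Submodule D2 (W →ₗ[T] M)) : Set (W →ₗ[T] M))) := by
  induction l with
  | zero => exact hVY
  | succ l ih =>
    rw [Function.iterate_succ_apply', Function.iterate_succ_apply']
    have h := iterF_mono' (hV.iter (ρ * g.card) l) ih (le_refl (ρ * g.card)) 1
    exact le_trans h (step j hc h1 g hg hp ρ _)

theorem hull (h1 : EndSc W D2) (hp : ∀ i, Pair (τ i) (τ2 i))
    (hτ : ∀ (i : ι) (t : T) (x : M), ∃ t' : T, τ i (t • x) = t' • τ i x)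
    (hτ' : ∀ (i : ι) (t : T) (x : M), ∃ t' : T, (τ i).symm (t • x) = t' • (τ i).symm x)
    (Y : Submodule D2 (W →ₗ[T] M)) {V : Submodule D M} (hV : StbF τ V) (hfg : V.FG)
    (hVY : V ≤ toD j hc (mY (Y : Set (W →ₗ[T] M)))) :
    ∃ Y0 : Submodule D2 (W →ₗ[T] M), Y0 ≤ Y ∧ Y0.FG ∧ StbF τ2 Y0 ∧
      V ≤ toD j hc (mY (Y0 : Set (W →ₗ[T] M))) := by
  let U : Submodule T M := Submodule.span T (V : Set M)
  have hUY : U ≤ mY (Y : Set (W →ₗ[T] M)) := Submodule.span_le.2 fun x hx => hVY hx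
  have hst : ∀ σ : M ≃ₗ[ℤ] M, (∀ (t : T) (x : M), ∃ t' : T, σ (t • x) = t' • σ x) →
      (∀ x ∈ V, σ x ∈ V) → ∀ x ∈ U, σ x ∈ U := by
    intro σ hσ hσV x hx
    induction hx using Submodule.span_induction with
    | mem x hx => exact Submodule.subset_span (hσV x hx)
    | zero => rw [map_zero]; exact U.zero_mem
    | add x y _ _ hx hy => rw [map_add]; exact U.add_mem hx hy
    | smul t x _ hx =>
      obtain ⟨t', ht⟩ := hσ t x
      rw [ht]
      exact U.smul_mem _ hx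
  have hU1 := fun i => hst (τ i) (hτ i) fun x hx => (hV i x).2 hx
  have hU2 := fun i => hst (τ i).symm (hτ' i) fun x hx => (hV i).symm_mem hx
  have hU3 : U ≤ mY ((hom h1 U : Submodule D2 (W →ₗ[T] M)) : Set (W →ₗ[T] M)) :=
    le_mY_of_le _ U hUY
  refine ⟨hom h1 U, fun f hf => mem_of_range_le h1 Y f (le_trans hf hUY), ?_, ?_,
    fun x hx => hU3 (Submodule.subset_span hx)⟩
  · obtain ⟨s, hs⟩ := hfg
    have hsV : ∀ x ∈ s, x ∈ V := fun x hx => by
      rw [← hs]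
      exact Submodule.subset_span hx
    obtain ⟨F, hF, hFU, hsF⟩ := exists_fin' s fun x hx => hU3 (Submodule.subset_span (hsV x hx))
    have hVF : V ≤ toD j hc (mY F) := by
      rw [← hs]
      exact Submodule.span_le.2 fun x hx => hsF x hx
    have hUF : U ≤ mY F := Submodule.span_le.2 fun x hx => hVF hx
    refine Submodule.fg_def.2 ⟨F, hF, le_antisymm (Submodule.span_le.2 hFU) fun f hf => ?_⟩
    refine mem_of_range_le h1 _ f ?_
    rw [mY_span h1]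
    exact le_trans hf hUF
  · exact fun i => stb_of (fun f hf => (hp i).back (hU1 i) hf)
      fun f hf => (hp i).symm.back (hU2 i) hf

end Cl3Fx

variable {D T M E : Type} [DivisionRing D] [Ring T] [AddCommGroup M] [Module D M]
  [Module T M] [Group E]

theorem cliff_bdF (j : D →+* T) (hc : ∀ (d : D) (x : M), d • x = j d • x) (S : SL D M E)
    (S' : SL T M E) (hS : S'.act = S.act) (W : Submodule T M) [IsSimpleModule T W]
    (hW : (toD j hc W).FG) (H : Subgroup E) {D2 : Type} [DivisionRing D2]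
    [Module D2 (W →ₗ[T] M)] {E2 : Type} [Group E2] (p : E2 →* E)
    (S2 : SL D2 (W →ₗ[T] M) E2) (h1 : EndSc W D2) (h2 : p.range = H)
    (h3 : ∀ e2, ∃ θ : W ≃+ W, ∀ (f : W →ₗ[T] M) (w : W),
      S2.act e2 f (θ w) = S.act (p e2) (f w))
    (Y : Submodule D2 (W →ₗ[T] M)) (hB : BdF S2 Y) :
    BdF (S.comap H.subtype) (toD j hc (mY (Y : Set (W →ₗ[T] M)))) := by
  obtain ⟨g, hg⟩ := Cl3x.gens j hc hW
  obtain ⟨n, l, ρ, hn, hB⟩ := hB
  refine ⟨n, l, ρ * g.card, hn, fun ι e V hVY hfg hV => ?_⟩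
  have he : ∀ i, ∃ e2, p e2 = (e i : E) := fun i => by
    have : (e i : E) ∈ p.range := by
      rw [h2]
      exact (e i).2
    exact this
  choose e2 he2 using he
  have hact : ∀ i, (S.comap H.subtype).act (e i) = S.act (p (e2 i)) := fun i => by
    rw [he2]
    rfl
  simp only [hact] at hV ⊢
  have hp : ∀ i, Cl3x.Pair (S.act (p (e2 i))) (S2.act (e2 i)) := fun i => h3 (e2 i)
  have hpn : ∀ i, Cl3x.Pair (S.act (p (e2 i)) ^ n) (S2.act (e2 i) ^ n) := fun i => by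
    have := h3 (e2 i ^ n)
    rw [map_pow, map_pow, map_pow] at this
    exact this
  have hτ : ∀ (a : E) (t : T) (x : M), ∃ t' : T, S.act a (t • x) = t' • S.act a x := by
    intro a t x
    rw [← hS]
    exact ⟨_, S'.act_smul a t x⟩
  have hinv : ∀ i, (S.act (p (e2 i))).symm = S.act (p (e2 i))⁻¹ := fun i => by
    rw [map_inv]
    rfl
  obtain ⟨Y0, hY0, hfg0, hs0, hV0⟩ := Cl3Fx.hull j hc h1 hp (fun i => hτ _)
    (fun i => by rw [hinv]; exact hτ _) Y hV hfg hVY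
  have h := Cl3Fx.iter j hc h1 g hg hpn ρ Y0 (hV.pow n) hV0 l
  rw [hB ι e2 Y0 hY0 hfg0 hs0] at h
  refine le_bot_iff.1 fun x hx => ?_
  refine Cl3x.mY_ind (C := fun x => x ∈ (⊥ : Submodule D M)) ?_ (Submodule.zero_mem _)
    (fun x y hx hy => Submodule.add_mem _ hx hy) (h hx)
  intro f hf w
  have hf0 : f = 0 := (Submodule.mem_bot D2).1 hf
  rw [hf0]
  exact Submodule.zero_mem _

end Pool.Agent.Lib.MP_721660_al.Hs
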