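import Pool.Agent.Lib.MP_721660_al.Hs.RadMap
import Pool.Agent.Lib.MP_721660_al.Ht.Rel

set_option autoImplicit false

namespace Pool.Agent.Lib.MP_721660_al.Hs
open Ht

variable {D M E : Type} [DivisionRing D] [AddCommGroup M] [Module D M] [Group E]

theorem bdF_anti {S : SL D M E} {N N' : Submodule D M} (h : N ≤ N') (hB : BdF S N') :
    BdF S N := by
  obtain ⟨n, l, ρ, hn, H⟩ := hB
  exact ⟨n, l, ρ, hn, fun ι e W hW => H ι e W (hW.trans h)⟩

theorem mainF_rel {n : ℕ} (hM : MainF n) {Γ : Type} [Group Γ] (S : SL D M E) (π : E →* Γ)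
    (h : Poly Γ n) (hs : S.Scal π.ker) (s : Finset M) : BdF S (S.gen (s : Set M)) := by
  classical
  obtain ⟨S', hS'⟩ := exists_sub S (S.gen (s : Set M)) (gen_inv S _)
  have h1 : S'.Scal π.ker := fun e he => by
    obtain ⟨d, hd⟩ := hs e he
    exact ⟨d, fun x => Subtype.ext (by rw [hS', hd]; rfl)⟩
  have h2 : S'.FGen := by
    refine ⟨s.subtype fun x => x ∈ S.gen (s : Set M), eq_top_iff.2 fun x _ => ?_⟩
    have h3 : S.gen (s : Set M) ≤ (S'.gen ((s.subtype fun x => x ∈ S.gen (s : Set M) :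
        Finset (S.gen (s : Set M))) : Set (S.gen (s : Set M)))).map
          (S.gen (s : Set M)).subtype := by
      refine Submodule.span_le.2 ?_
      rintro _ ⟨e, y, hy, rfl⟩
      refine ⟨S'.act e ⟨y, subset_gen S _ hy⟩, Submodule.subset_span ⟨e, _, ?_, rfl⟩, hS' _ _⟩
      exact Finset.mem_coe.2 (Finset.mem_subtype.2 hy)
    obtain ⟨y, hy, e⟩ := h3 x.2
    rwa [← (Subtype.ext e : y = x)]
  obtain ⟨k, l, ρ, hk, H⟩ := hM D _ E Γ S' π h h1 h2
  refine ⟨k, l, ρ, hk, fun ι e W hW hfg hst => ?_⟩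
  obtain ⟨r, hr⟩ := (S.gen (s : Set M)).subtype.exists_leftInverse_of_injective
    (Submodule.ker_subtype _)
  have hr' : ∀ (x : M) (hx : x ∈ S.gen (s : Set M)), r x = ⟨x, hx⟩ := fun x hx =>
    LinearMap.congr_fun hr ⟨x, hx⟩
  have h4 := H ι e (W.comap (S.gen (s : Set M)).subtype) le_top
    (Submodule.fg_of_fg_map_injective _ (Submodule.injective_subtype _)
      (by rwa [Submodule.map_comap_subtype, inf_eq_right.2 hW]))
    (fun i x => by
      rw [Submodule.mem_comap, Submodule.mem_comap, Submodule.subtype_apply, hS']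
      exact hst i _)
  refine eq_bot_iff.2 fun x hx => ?_
  have h5 := iterF_map (RingEquiv.refl D) r.toAddMonoidHom (fun d x => r.map_smul d x)
    (τ' := fun i => S'.act (e i) ^ k) (W' := W.comap (S.gen (s : Set M)).subtype) (hst.pow k)
    (fun y hy => by
      change r y ∈ _
      rw [hr' y (hW hy)]
      exact hy)
    (fun i y hy => by
      change r _ = (S'.act (e i) ^ k) (r y)
      rw [hr' y (hW hy), hr' _ (hW ((hst.pow k i y).2 hy)), ← map_pow S'.act]
      refine Subtype.ext ?_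
      rw [hS', map_pow]) le_rfl l x hx
  rw [h4] at h5
  have h6 : r x = 0 := h5
  rw [hr' x (hW (iterF_le _ _ _ hx))] at h6
  exact congrArg Subtype.val h6

theorem bdF_fin_index (S : SL D M E) (H : Subgroup E) [H.FiniteIndex] (N : Submodule D M)
    (hB : BdF (S.comap H.subtype) N) : BdF S N := by
  obtain ⟨n, l, ρ, hn, hb⟩ := hB
  have hk : 0 < H.normalCore.index := Nat.pos_of_ne_zero Subgroup.FiniteIndex.index_ne_zero
  refine ⟨H.normalCore.index * n, l, ρ, Nat.mul_pos hk hn, fun ι e W hW hfg hst => ?_⟩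
  have e1 : ∀ i, (S.comap H.subtype).act ⟨e i ^ H.normalCore.index,
      H.normalCore_le (H.normalCore.pow_index_mem (e i))⟩ =
      S.act (e i) ^ H.normalCore.index := fun i => map_pow S.act (e i) _
  have h1 := hb ι (fun i => ⟨e i ^ H.normalCore.index,
    H.normalCore_le (H.normalCore.pow_index_mem (e i))⟩) W hW hfg
    (fun i => by
      change Stb ((S.comap H.subtype).act _) W
      rw [e1]; exact (hst i).pow _)
  simp only [e1, ← pow_mul] at h1
  exact h1

theorem bdF_finite {Γ : Type} [Group Γ] (S : SL D M E) (π : E →* Γ)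
    (hf : (π.range : Set Γ).Finite) (hs : S.Scal π.ker) (hg : S.FGen) : BdF S ⊤ := by
  classical
  obtain ⟨s, hg⟩ := hg
  have : Fintype π.range := hf.fintype
  choose u hu using fun g : π.range => g.2
  let t : Finset M := ((Finset.univ : Finset π.range) ×ˢ s).image fun p => S.act (u p.1) p.2
  have ht : Cod t.card (⊥ : Submodule D M) ⊤ := by
    refine ⟨t, le_rfl, ?_⟩
    rw [bot_sup_eq, ← hg]
    refine Submodule.span_le.2 ?_
    rintro _ ⟨e, x, hx, rfl⟩
    obtain ⟨d, hd⟩ := hs ((u ⟨π e, e, rfl⟩)⁻¹ * e) (by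
      rw [MonoidHom.mem_ker, map_mul, map_inv, hu, inv_mul_cancel])
    have e1 : S.act e x = S.tw (u ⟨π e, e, rfl⟩) d • S.act (u ⟨π e, e, rfl⟩) x := by
      rw [← S.act_smul, ← hd, ← act_mul, mul_inv_cancel_left]
    rw [e1]
    refine Submodule.smul_mem _ _ (Submodule.subset_span ?_)
    exact Finset.mem_coe.2 (Finset.mem_image.2
      ⟨(⟨π e, e, rfl⟩, x), Finset.mem_product.2 ⟨Finset.mem_univ _, hx⟩, rfl⟩)
  refine ⟨1, 1, t.card, one_pos, fun ι e W _ _ _ => ?_⟩
  exact radF_eq_bot (cod_comap (RingEquiv.refl D) (AddMonoidHom.id M) (fun _ _ => rfl)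
    (fun _ _ => Submodule.mem_top) ht fun x =>
      ⟨fun hx => ⟨(bot_le : ⊥ ≤ W) hx, hx⟩, fun hx => hx.2⟩)

end Pool.Agent.Lib.MP_721660_al.Hs
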