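import Pool.Agent.Lib.MP_721660_al.Hs.Cl3
import Pool.Agent.Lib.MP_721660_al.Hs.Rel
import Pool.Agent.Lib.MP_721660_al.Ht.Cl1
import Pool.Agent.Lib.MP_721660_al.Ht.Ser4
import Pool.Agent.Lib.MP_721660_al.Ht.Cr2

set_option autoImplicit false

namespace Pool.Agent.Lib.MP_721660_al.Hs
open Ht

variable {D M E : Type} [DivisionRing D] [AddCommGroup M] [Module D M] [Group E]
  {Γ : Type} [Group Γ] {π : E →* Γ} {A : Subgroup E} {m : ℕ} {β : E → Zm m}
  {φ : E →* (Zm m ≃ₗ[ℤ] Zm m)}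

theorem bdF_simple {n : ℕ} (IH : ∀ n' < n, MainF n') (h : Poly Γ n) (S : SL D M E)
    (hP : Plinth π A m β φ) (S' : SL (S.rg (A : Set E)) M E) (hS : S'.act = S.act) (x : M)
    [IsSimpleModule (S.rg (A : Set E)) (Submodule.span (S.rg (A : Set E)) {x})]
    (hfg : (toD (S.inc (A : Set E)) (inc_smul S _)
      (Submodule.span (S.rg (A : Set E)) {x})).FG) (H : Subgroup E)
    (hH : ∀ e, e ∈ H ↔ Sim (S.rg (A : Set E)) x (S.act e x)) :
    BdF (S.comap H.subtype) ((S.comap H.subtype).gen {x}) := by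
  classical
  haveI := hP.normal
  obtain ⟨n', hn', hp'⟩ := poly_quot h hP
  have hθ : ∀ e ∈ H, ∃ θ : Submodule.span (S.rg (A : Set E)) {x} ≃+
      Submodule.span (S.rg (A : Set E)) {x}, ∀ (t : S.rg (A : Set E))
      (w : Submodule.span (S.rg (A : Set E)) {x}), θ (t • w) = S'.tw e t • θ w := by
    intro e he
    refine theta_of_sim S' x e ?_
    rw [hS]
    exact (hH e).1 he
  obtain ⟨D2, i1, i2, E2, i3, p, S2, h1, h2, h3, h4⟩ := cliff_data S' _ H hθ
  rw [hS] at h3 h4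
  have hs2 : S2.Scal ((QuotientGroup.mk' A).comp p).ker := by
    intro e2 he2
    have hA : p e2 ∈ A := by
      have := MonoidHom.mem_ker.1 he2
      exact (QuotientGroup.eq_one_iff _).1 this
    exact h4 e2 ⟨S.op (p e2), op_mem S hA⟩ fun _ => rfl
  have hB := mainF_rel (IH n' hn') S2 ((QuotientGroup.mk' A).comp p) hp' hs2
    {(Submodule.span (S.rg (A : Set E)) {x}).subtype}
  refine bdF_anti ?_ (cliff_bdF _ (inc_smul S _) S S' hS _ hfg H p S2 h1 h2 h3 _ hB)
  refine Submodule.span_le.2 ?_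
  rintro y ⟨e, z, hz, rfl⟩
  rw [Set.mem_singleton_iff] at hz
  subst hz
  have he : (e : E) ∈ p.range := by rw [h2]; exact e.2
  obtain ⟨e2, he2⟩ := he
  obtain ⟨θ, hθ2⟩ := h3 e2
  have hmem : S2.act e2 (Submodule.span (S.rg (A : Set E)) {z}).subtype ∈
      S2.gen (({(Submodule.span (S.rg (A : Set E)) {z}).subtype} : Finset _) : Set _) :=
    gen_inv S2 _ e2 _ (subset_gen S2 _ (by simp))
  have hle : LinearMap.range (S2.act e2 (Submodule.span (S.rg (A : Set E)) {z}).subtype) ≤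
      mY (S2.gen (({(Submodule.span (S.rg (A : Set E)) {z}).subtype} : Finset _) : Set _) :
        Set _) :=
    le_iSup₂_of_le (f := fun f _ => LinearMap.range f) _ hmem le_rfl
  refine hle ⟨θ ⟨z, Submodule.mem_span_singleton_self z⟩, ?_⟩
  rw [hθ2, he2]
  rfl

end Pool.Agent.Lib.MP_721660_al.Hs
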