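import Pool.Agent.Lib.MP_721660_al.Ht.Rad

set_option autoImplicit false

namespace Pool.Agent.Lib.MP_721660_al.Hs
open Ht

section Rad
variable {D M ι : Type} [Ring D] [AddCommGroup M] [Module D M]

/-- Stable under every member of a family. -/
def StbF (τ : ι → (M ≃ₗ[ℤ] M)) (U : Submodule D M) : Prop := ∀ i, Stb (τ i) U

/-- The radical for a family. -/
def radF (ρ : ℕ) (τ : ι → (M ≃ₗ[ℤ] M)) (W : Submodule D M) : Submodule D M :=
  W ⊓ sInf {U | StbF τ U ∧ U ≤ W ∧ Cod ρ U W}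

/-- A minimal non zero subspace stable under the family. -/
def SmpF (τ : ι → (M ≃ₗ[ℤ] M)) (Z : Submodule D M) : Prop :=
  Z ≠ ⊥ ∧ StbF τ Z ∧ ∀ U : Submodule D M, StbF τ U → U ≤ Z → U = ⊥ ∨ U = Z

end Rad

/-- The uniform bound for families of group elements. -/
def BdF {R M E : Type} [Ring R] [AddCommGroup M] [Module R M] [Group E] (S : SL R M E)
    (N : Submodule R M) : Prop :=
  ∃ n l ρ : ℕ, 0 < n ∧ ∀ (ι : Type) (e : ι → E) (W : Submodule R M), W ≤ N → W.FG →
    StbF (fun i => S.act (e i)) W → (radF ρ (fun i => S.act (e i) ^ n))^[l] W = ⊥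

/-- The induction statement. -/
def MainF (n : ℕ) : Prop :=
  ∀ (D M E Γ : Type) [DivisionRing D] [AddCommGroup M] [Module D M] [Group E] [Group Γ]
    (S : SL D M E) (π : E →* Γ), Poly Γ n → S.Scal π.ker → S.FGen → BdF S ⊤

/-- Small dimension over `L` gives a short radical series over `K`. -/
def DownF {K L ι : Type} [DivisionRing K] [DivisionRing L] (j : K →+* L) (σ : ι → (L ≃+* L))
    (ρ l : ℕ) : Prop :=
  ∀ (V : Type) [AddCommGroup V] [Module L V] [Module K V] (τ : ι → (V ≃ₗ[ℤ] V))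
    (X : Submodule K V), Cmp j V → (∀ i, Semi (σ i) (τ i)) → Dim L ρ (X : Set V) → X.FG →
    StbF τ X → (radF ρ τ)^[l] X = ⊥

/-- `n` successive differences along elements of `H` carry `x` into `U`. -/
def Nil {Q M : Type} [AddCommGroup M] (a : Q → M → M) (H : Set Q) (U : Set M) : ℕ → M → Prop
  | 0, x => x ∈ U
  | n + 1, x => ∀ g ∈ H, Nil a H U n (a g x - x)

/-- Stunted module. -/
def Stu {Q M : Type} [Group Q] [AddCommGroup M] (a : Q → M → M) : Prop :=
  ∃ h : ℕ, ∀ (H : Subgroup Q) (n : ℕ) (x : M), Nil a (H : Set Q) {0} n x → Nil a (H : Set Q) {0} h x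

/-- Stunted group. -/
def GStu (G : Type) [Group G] : Prop :=
  ∃ h : ℕ, ∀ (H : Subgroup G) (n : ℕ), upperCentralSeries H n ≤ upperCentralSeries H h

/-- The subgroup generated by the `n`-th powers of the elements of `H`. -/
def pw {Q : Type} [Group Q] (H : Subgroup Q) (n : ℕ) : Subgroup Q :=
  Subgroup.closure {y | ∃ h ∈ H, y = h ^ n}

section RadLemmas
variable {D M ι : Type} [Ring D] [AddCommGroup M] [Module D M] {τ : ι → (M ≃ₗ[ℤ] M)}

theorem radF_le (ρ : ℕ) (τ : ι → (M ≃ₗ[ℤ] M)) (W : Submodule D M) : radF ρ τ W ≤ W :=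
  inf_le_left

theorem radF_le_of {ρ : ℕ} {U W : Submodule D M} (hs : StbF τ U) (hU : U ≤ W)
    (hc : Cod ρ U W) : radF ρ τ W ≤ U := le_trans inf_le_right (sInf_le ⟨hs, hU, hc⟩)

theorem mem_radF {ρ : ℕ} {W : Submodule D M} {x : M} :
    x ∈ radF ρ τ W ↔ x ∈ W ∧ ∀ U : Submodule D M, StbF τ U → U ≤ W → Cod ρ U W → x ∈ U := by
  simp only [radF, Submodule.mem_inf, Submodule.mem_sInf, Set.mem_setOf_eq, and_imp]

theorem stbF_bot : StbF τ (⊥ : Submodule D M) := fun _ => stb_bot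

theorem stbF_top : StbF τ (⊤ : Submodule D M) := fun _ => stb_top

theorem StbF.inf {U W : Submodule D M} (hU : StbF τ U) (hW : StbF τ W) : StbF τ (U ⊓ W) :=
  fun i => (hU i).inf (hW i)

theorem StbF.sup {U W : Submodule D M} (hU : StbF τ U) (hW : StbF τ W) : StbF τ (U ⊔ W) :=
  fun i => (hU i).sup (hW i)

theorem StbF.pow {U : Submodule D M} (hU : StbF τ U) (n : ℕ) : StbF (fun i => τ i ^ n) U :=
  fun i => (hU i).pow n

theorem StbF.rad {W : Submodule D M} (hW : StbF τ W) (ρ : ℕ) : StbF τ (radF ρ τ W) :=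
  fun i x => by
  rw [mem_radF, mem_radF, hW i x]
  exact and_congr_right fun _ => forall_congr' fun U => forall_congr' fun hU => by rw [hU i x]

theorem StbF.iter {W : Submodule D M} (hW : StbF τ W) (ρ l : ℕ) :
    StbF τ ((radF ρ τ)^[l] W) := by
  induction l with
  | zero => exact hW
  | succ l ih => rw [Function.iterate_succ_apply']; exact ih.rad ρ

theorem iterF_le (ρ l : ℕ) (W : Submodule D M) : (radF ρ τ)^[l] W ≤ W := by
  induction l with
  | zero => exact le_rfl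
  | succ l ih => rw [Function.iterate_succ_apply']; exact (radF_le _ _ _).trans ih

theorem iterF_bot_of_le {ρ l l' : ℕ} {W : Submodule D M} (hl : l ≤ l')
    (h : (radF ρ τ)^[l] W = ⊥) : (radF ρ τ)^[l'] W = ⊥ := by
  obtain ⟨k, rfl⟩ := Nat.exists_eq_add_of_le hl
  rw [add_comm, Function.iterate_add_apply, h]
  exact le_bot_iff.1 (iterF_le _ _ _)

theorem radF_eq_bot {ρ : ℕ} {W : Submodule D M} (h : Cod ρ ⊥ W) : radF ρ τ W = ⊥ :=
  le_bot_iff.1 (radF_le_of stbF_bot bot_le h)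

end RadLemmas

end Pool.Agent.Lib.MP_721660_al.Hs
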