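import Pool.Agent.Lib.MP_721660_al.Hs.Rel
import Pool.Agent.Lib.MP_721660_al.Ht.Noe

set_option autoImplicit false

namespace Pool.Agent.Lib.MP_721660_al.Hs
open Ht

variable {D M E : Type} [DivisionRing D] [AddCommGroup M] [Module D M] [Group E]

theorem bdF_ext (S : SL D M E) (N : Submodule D M) (hN : S.Inv N) (S' : SL D (M ⧸ N) E)
    (hS : ∀ e x, S'.act e (N.mkQ x) = N.mkQ (S.act e x)) (N' : Submodule D (M ⧸ N))
    (h1 : BdF S N) (h2 : BdF S' N') : BdF S (N'.comap N.mkQ) := by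
  obtain ⟨n₁, l₁, ρ₁, p₁, h1⟩ := h1
  obtain ⟨n₂, l₂, ρ₂, p₂, h2⟩ := h2
  refine ⟨n₁ * n₂, l₁ + l₂, max ρ₁ ρ₂, Nat.mul_pos p₁ p₂, fun ι e W hW hf hs => ?_⟩
  have s' : StbF (fun i => S'.act (e i)) (W.map N.mkQ) := fun i => by
    refine stb_of ?_ ?_
    · rintro _ ⟨w, hw, rfl⟩
      exact ⟨S.act (e i) w, (hs i w).2 hw, (hS (e i) w).symm⟩
    · rintro _ ⟨w, hw, rfl⟩
      refine ⟨(S.act (e i)).symm w, (hs i).symm_mem hw, ?_⟩
      rw [eq_comm, LinearEquiv.symm_apply_eq, hS, LinearEquiv.apply_symm_apply]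
  have a1 := h2 ι e (W.map N.mkQ) (Submodule.map_le_iff_le_comap.2 hW) (hf.map _) s'
  have a2 := iterF_mono (fun i => S'.act (e i) ^ n₂) n₁ ((s'.pow n₂).pow n₁) le_rfl
    (le_max_right ρ₁ ρ₂) l₂
  rw [a1] at a2
  have a3 := iterF_map (RingEquiv.refl D) N.mkQ.toAddMonoidHom (fun d x => N.mkQ.map_smul d x)
    (τ := fun i => S.act (e i) ^ (n₁ * n₂)) (τ' := fun i => (S'.act (e i) ^ n₂) ^ n₁) (W := W)
    (W' := W.map N.mkQ) (hs.pow _) (fun x hx => ⟨x, hx, rfl⟩) (fun i x _ => by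
      rw [← pow_mul, mul_comm n₂, ← map_pow, ← map_pow]
      exact (hS _ x).symm) (le_refl (max ρ₁ ρ₂)) l₂
  have a4 : (radF (max ρ₁ ρ₂) (fun i => S.act (e i) ^ (n₁ * n₂)))^[l₂] W ≤ W ⊓ N := fun x hx =>
    ⟨iterF_le _ _ _ hx,
      (Submodule.Quotient.mk_eq_zero N).1 ((Submodule.mem_bot D).1 (a2 (a3 x hx)))⟩
  have a5 := h1 ι e (W ⊓ N) inf_le_right (fg_of_le hf inf_le_left)
    (hs.inf fun i => hN.stb (e i))
  have a6 := ((hs.pow (n₁ * n₂)).iter (max ρ₁ ρ₂) l₂)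
  rw [Function.iterate_add_apply]
  simp only [pow_mul] at a4 a6 ⊢
  exact le_bot_iff.1
    ((iterF_mono (fun i => S.act (e i) ^ n₁) n₂ a6 a4 (le_max_left ρ₁ ρ₂) l₁).trans_eq a5)

theorem genF_ind {Γ : Type} [Group Γ] (S : SL D M E) (π : E →* Γ) {n : ℕ} (h : Poly Γ n)
    (hs : S.Scal π.ker) (hg : S.FGen)
    (step : ∀ (M' : Type) [AddCommGroup M'] [Module D M'] (S' : SL D M' E), Nontrivial M' →
      S'.Scal π.ker → S'.FGen → ∃ N : Submodule D M', N ≠ ⊥ ∧ S'.Inv N ∧ BdF S' N) :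
    BdF S ⊤ := by
  classical
  obtain ⟨s, hg⟩ := hg
  haveI := noeth_rg S π h hs ⊤
  haveI : Module.Finite (S.rg ((⊤ : Subgroup E) : Set E)) M := by
    refine ⟨⟨s, eq_top_iff.2 fun x _ => ?_⟩⟩
    have k : S.gen (s : Set M) ≤ toD (S.inc _) (inc_smul S ((⊤ : Subgroup E) : Set E))
        (Submodule.span (S.rg ((⊤ : Subgroup E) : Set E)) (s : Set M)) :=
      gen_le S (fun e y hy => Submodule.smul_mem
        (Submodule.span (S.rg ((⊤ : Subgroup E) : Set E)) (s : Set M))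
        ⟨S.op e, op_mem S (Subgroup.mem_top e)⟩ hy) Submodule.subset_span
    exact k (hg ▸ Submodule.mem_top)
  obtain ⟨U, ⟨N, hU, hN, hB⟩, hmax⟩ := set_has_maximal_iff_noetherian.2
    (inferInstance : IsNoetherian (S.rg ((⊤ : Subgroup E) : Set E)) M)
    {U | ∃ N : Submodule D M, (∀ x, x ∈ U ↔ x ∈ N) ∧ S.Inv N ∧ BdF S N}
    ⟨⊥, ⊥, fun x => by simp, fun e x hx => by
      rw [(Submodule.mem_bot D).1 hx, map_zero]; exact Submodule.zero_mem _,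
      1, 0, 0, Nat.one_pos, fun _ e W hW _ _ => le_bot_iff.1 hW⟩
  by_cases ht : N = ⊤
  · exact ht ▸ hB
  exfalso
  obtain ⟨S', hS⟩ := exists_quot S N hN
  have inv : ∀ N' : Submodule D (M ⧸ N), S'.Inv N' → S.Inv (N'.comap N.mkQ) := fun N' k e x hx => by
    rw [Submodule.mem_comap, ← hS]
    exact k e _ hx
  obtain ⟨N', n1, n2, n3⟩ := step (M ⧸ N) S' (Submodule.Quotient.nontrivial_iff.2 ht)
    (fun e he => by
      obtain ⟨d, hd⟩ := hs e he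
      refine ⟨d, fun x => ?_⟩
      obtain ⟨y, rfl⟩ := N.mkQ_surjective x
      rw [hS, hd, map_smul])
    ⟨s.image N.mkQ, eq_top_iff.2 fun x _ => by
      obtain ⟨y, rfl⟩ := N.mkQ_surjective x
      have k : S.gen (s : Set M) ≤ (S'.gen ((s.image N.mkQ : Finset (M ⧸ N)) : Set (M ⧸ N))).comap
          N.mkQ := gen_le S (inv _ (gen_inv S' _)) fun z hz =>
        subset_gen S' _ (Finset.mem_coe.2 (Finset.mem_image_of_mem _ hz))
      exact k (hg ▸ Submodule.mem_top)⟩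
  obtain ⟨U', hU'⟩ := exists_lift S ((⊤ : Subgroup E) : Set E) (N'.comap N.mkQ)
    fun a _ => inv N' n2 a
  refine hmax U' ⟨_, hU', inv N' n2, bdF_ext S N hN S' hS N' hB n3⟩ (lt_of_le_of_ne
    (fun x hx => (hU' x).2 ?_) fun e => n1 (eq_bot_iff.2 fun x hx => ?_))
  · rw [Submodule.mem_comap, Submodule.mkQ_apply, (Submodule.Quotient.mk_eq_zero N).2 ((hU x).1 hx)]
    exact N'.zero_mem
  · obtain ⟨y, rfl⟩ := N.mkQ_surjective x
    exact (Submodule.Quotient.mk_eq_zero N).2 ((hU y).1 (e ▸ (hU' y).2 hx))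

end Pool.Agent.Lib.MP_721660_al.Hs
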