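import Pool.Agent.Lib.MP_721660_al.Hs.Defs
import Pool.Agent.Lib.MP_721660_al.Ht.Ser3

set_option autoImplicit false

namespace Pool.Agent.Lib.MP_721660_al.Hs
open Ht

namespace IdxFx

variable {Q : Type} [Group Q]

/-- The elements of `L ⊓ H` lie in boundedly many cosets of the power subgroup of `H`. -/
def Cv (k : ℕ) (L : Subgroup Q) : Prop :=
  ∃ N : ℕ, ∀ H : Subgroup Q, ∃ s : Finset Q, s.card ≤ N ∧ (∀ g ∈ s, g ∈ H) ∧
    ∀ g ∈ L, g ∈ H → ∃ t ∈ s, t⁻¹ * g ∈ pw H k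

theorem cv_step {k : ℕ} (hk : 0 < k) {K L : Subgroup Q} {t : Q} (hKL : K ≤ L) (ht : t ∈ L)
    (hn : ∀ h ∈ L, ∀ c ∈ K, h * c * h⁻¹ ∈ K) (hg : ∀ h ∈ L, ∃ c ∈ K, ∃ z : ℤ, h = c * t ^ z)
    (ih : Cv k K) : Cv k L := by
  classical
  obtain ⟨N, hN⟩ := ih
  refine ⟨k * N, fun H => ?_⟩
  obtain ⟨s, hs, hsH, hcov⟩ := hN H
  obtain ⟨d, t', ht', -, hgen⟩ := Ser1x.step hKL ht hn hg H
  refine ⟨(Finset.range k ×ˢ s).image fun p => t' ^ p.1 * p.2, ?_, ?_, ?_⟩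
  · refine Finset.card_image_le.trans ?_
    rw [Finset.card_product, Finset.card_range]
    exact Nat.mul_le_mul_left k hs
  · intro g hg'
    obtain ⟨p, hp, rfl⟩ := Finset.mem_image.mp hg'
    exact H.mul_mem (H.pow_mem ht'.2 _) (hsH _ (Finset.mem_product.mp hp).2)
  · intro g hgL hgH
    obtain ⟨c, hc, z, rfl⟩ := hgen g ⟨hgL, hgH⟩
    have hk' : (0 : ℤ) < k := by exact_mod_cast hk
    obtain ⟨r, hr⟩ := Int.eq_ofNat_of_zero_le (Int.emod_nonneg z hk'.ne')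
    have hrk : r < k := by
      have := Int.emod_lt_of_pos z hk'
      omega
    have hz : t' ^ z = t' ^ r * (t' ^ (z / k)) ^ k := by
      rw [← zpow_natCast, ← zpow_natCast, ← zpow_mul, ← zpow_add, ← hr]
      congr 1
      rw [mul_comm]
      exact (Int.emod_add_mul_ediv z k).symm
    have hcK : (t' ^ r)⁻¹ * c * (t' ^ r)⁻¹⁻¹ ∈ K := hn _ (L.inv_mem (L.pow_mem ht'.1 r)) c hc.1
    have hcH : (t' ^ r)⁻¹ * c * (t' ^ r)⁻¹⁻¹ ∈ H :=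
      H.mul_mem (H.mul_mem (H.inv_mem (H.pow_mem ht'.2 r)) hc.2)
        (H.inv_mem (H.inv_mem (H.pow_mem ht'.2 r)))
    obtain ⟨u, hu, hu'⟩ := hcov _ hcK hcH
    refine ⟨t' ^ r * u, Finset.mem_image.mpr
      ⟨(r, u), Finset.mem_product.mpr ⟨Finset.mem_range.mpr hrk, hu⟩, rfl⟩, ?_⟩
    have h1 : (t' ^ (z / k)) ^ k ∈ pw H k :=
      Subgroup.subset_closure ⟨_, H.zpow_mem ht'.2 _, rfl⟩
    have h2 : (t' ^ r * u)⁻¹ * (c * t' ^ z) =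
        u⁻¹ * ((t' ^ r)⁻¹ * c * (t' ^ r)⁻¹⁻¹) * (t' ^ (z / k)) ^ k := by
      rw [hz, mul_inv_rev, inv_inv]
      simp only [mul_assoc]
    rw [h2]
    exact (pw H k).mul_mem hu' h1

theorem cv_ser {k : ℕ} (hk : 0 < k) {n : ℕ} {L : Subgroup Q} (h : Ser n L) : Cv k L := by
  induction h with
  | bot n =>
    refine ⟨1, fun H => ⟨{1}, by simp, by simp, fun g hg _ => ⟨1, by simp, ?_⟩⟩⟩
    rw [Subgroup.mem_bot.mp hg]
    simp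
  | fin t _ hK ht hn hg _ ih => exact cv_step hk hK ht hn hg ih
  | inf t _ hK ht hn hg ih => exact cv_step hk hK ht hn hg ih

end IdxFx

theorem pw_index {Q : Type} [Group Q] {n : ℕ} (h : Poly Q n) (k : ℕ) (hk : 0 < k) :
    ∃ N : ℕ, ∀ H : Subgroup Q, ∃ s : Finset Q, s.card ≤ N ∧ (∀ g ∈ s, g ∈ H) ∧
      ∀ g ∈ H, ∃ t ∈ s, t⁻¹ * g ∈ pw H k := by
  obtain ⟨N, hN⟩ := IdxFx.cv_ser hk h
  refine ⟨N, fun H => ?_⟩
  obtain ⟨s, h1, h2, h3⟩ := hN H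
  exact ⟨s, h1, h2, fun g hg => h3 g (Subgroup.mem_top g) hg⟩

end Pool.Agent.Lib.MP_721660_al.Hs
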