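import Pool.Agent.Lib.MP_721660_al.Hs.Rel
import Pool.Agent.Lib.MP_721660_al.Ht.Ind

set_option autoImplicit false

namespace Pool.Agent.Lib.MP_721660_al.Hs
open Ht

variable {D M E : Type} [DivisionRing D] [AddCommGroup M] [Module D M] [Group E]

open Ht.Indx in
theorem bdF_induced (S : SL D M E) (H : Subgroup E) (N : Submodule D M)
    (hN : (S.comap H.subtype).Inv N) (hI : S.Indp H N) (hH : Isol H)
    (hB : BdF (S.comap H.subtype) N) : BdF S (S.gen (N : Set M)) := by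
  obtain ⟨P, hP⟩ := exists_pr S H N hN hI
  obtain ⟨n1, hn1, hiso⟩ := hH
  obtain ⟨n, l, ρ, hn, hb⟩ := hB
  refine ⟨n1 * n, l, ρ, Nat.mul_pos hn1 hn, fun ι e W hW hf hs => ?_⟩
  refine (Submodule.eq_bot_iff _).2 fun x hx => ?_
  have hxW : x ∈ W := iterF_le ρ l W hx
  have key : ∀ g, cp S P g x = 0 := fun g => by
    by_contra h0
    have cj : ∀ (i : ι) (k : ℕ), (g⁻¹ * e i * g) ^ k = g⁻¹ * e i ^ k * g := fun i k => by
      have := conj_pow (i := k) (a := g⁻¹) (b := e i)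
      rwa [inv_inv] at this
    have h2 : ∀ i, g⁻¹ * e i ^ n1 * g ∈ H := fun i => by
      obtain ⟨r, hr, h1⟩ := hP.per hW hf (hs i) hxW h0
      rw [← cj]
      exact hiso _ r hr h1
    obtain ⟨W', f1, f2⟩ := img (S := S) (P := P) g hf
    have s1 : ∀ i, Stb (S.act (e i ^ n1)) W := fun i => by rw [map_pow]; exact (hs i).pow n1
    have s2 : ∀ i, Stb (S.act (g⁻¹ * e i ^ n1 * g)) W' := fun i => by
      refine stb_of (fun y hy => ?_) fun y hy => ?_
      · obtain ⟨w, hw, rfl⟩ := (f2 y).1 hy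
        exact (f2 _).2 ⟨_, (s1 i w).2 hw, hP.move (h2 i) (hW hw)⟩
      · obtain ⟨w, hw, rfl⟩ := (f2 y).1 hy
        have hw' := (s1 i).symm_mem hw
        refine (f2 _).2 ⟨_, hw', ?_⟩
        rw [LinearEquiv.eq_symm_apply, ← hP.move (h2 i) (hW hw'), LinearEquiv.apply_symm_apply]
    have h4 := hb ι (fun i => ⟨_, h2 i⟩) W' (fun y hy => by
      obtain ⟨w, -, rfl⟩ := (f2 y).1 hy
      exact hP.mem _) f1 s2
    have h5 : ∀ i, g⁻¹ * e i ^ (n1 * n) * g = (g⁻¹ * e i ^ n1 * g) ^ n := fun i => by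
      rw [← cj, ← cj, pow_mul]
    have h6 := iterF_map (S.tw g⁻¹) (cp S P g) (cp_smul g)
      (τ := fun i => S.act (e i) ^ (n1 * n))
      (τ' := fun i => (S.comap H.subtype).act ⟨_, h2 i⟩ ^ n) (W := W) (W' := W') (hs.pow _)
      (fun w hw => (f2 _).2 ⟨w, hw, rfl⟩) (fun i w hw => by
        rw [← map_pow, hP.move (h5 i ▸ H.pow_mem (h2 i) n) (hW hw), h5, map_pow]
        rfl) le_rfl l x hx
    rw [h4] at h6
    exact h0 h6
  obtain ⟨s, -, h2⟩ := hP.dec (hW hxW)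
  rw [← h2]
  exact Finset.sum_eq_zero fun q _ => by rw [key, map_zero]

end Pool.Agent.Lib.MP_721660_al.Hs
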