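import Pool.Agent.Lib.MP_721660_al.Hs.Per
import Pool.Agent.Lib.MP_721660_al.Hs.SS
import Pool.Agent.Lib.MP_721660_al.Ht.Zsub

set_option autoImplicit false

namespace Pool.Agent.Lib.MP_721660_al.Hs
open Ht

variable {K L B V ι : Type} [DivisionRing K] [DivisionRing L] [AddCommGroup B] [AddCommGroup V]
  [Module L V] [Module K V] {j : K →+* L} {u : B → L} {σ : ι → (L ≃+* L)}
  {φ : ι → (B ≃ₗ[ℤ] B)} {τ : ι → (V ≃ₗ[ℤ] V)}

namespace ZsubFx

open Ht.Zsubx hiding smp_single relation iterate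

theorem smp_single (h : CR j u) (ht : ∀ i, Tw j u (σ i) (φ i)) (hc : Cmp j V) (hτ : ∀ i, Semi (σ i) (τ i)) {a : B}
    (ha : ∀ i, φ i a = a) {Z : Submodule K V} (hZ : SmpF τ Z) : SmpF τ (usp K u {a} (Z : Set V)) := by
  refine ⟨?_, fun i => stb_usp h (ht i) hc (hτ i)
    (fun b hb => by rw [Set.mem_singleton_iff.1 hb, ha]) (hZ.2.1 i), fun U hU hle => ?_⟩
  · obtain ⟨z, hz, hz0⟩ := (Submodule.ne_bot_iff Z).1 hZ.1
    exact (Submodule.ne_bot_iff _).2 ⟨u a • z, self_mem rfl hz, smul_ne_zero (h.ne a) hz0⟩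
  · let U' : Submodule K V :=
      { carrier := {z | z ∈ Z ∧ u a • z ∈ U}
        add_mem' := fun h1 h2 => ⟨Z.add_mem h1.1 h2.1, by
          rw [smul_add]; exact U.add_mem h1.2 h2.2⟩
        zero_mem' := ⟨Z.zero_mem, by rw [smul_zero]; exact U.zero_mem⟩
        smul_mem' := fun k z hz => ⟨Z.smul_mem k hz.1, by
          obtain ⟨k', hk⟩ := h.nl a k
          rw [hc, smul_smul, hk, ← smul_smul, ← hc]
          exact U.smul_mem k' hz.2⟩ }
    have hU' : StbF τ U' := by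
      intro i x
      obtain ⟨k, hk⟩ := (ht i).uu a
      rw [ha] at hk
      have k0 : k ≠ 0 := by
        rintro rfl
        rw [map_zero, zero_mul] at hk
        exact h.ne a (by simpa using hk)
      have e : τ i (u a • x) = k • u a • τ i x := by rw [hτ i, hk, hc, smul_smul]
      change (τ i x ∈ Z ∧ u a • τ i x ∈ U) ↔ (x ∈ Z ∧ u a • x ∈ U)
      rw [hZ.2.1 i x, ← hU i (u a • x), e, U.smul_mem_iff k0]
    rcases hZ.2.2 U' hU' (fun z hz => hz.1) with e | e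
    · refine Or.inl ((Submodule.eq_bot_iff U).2 fun v hv => ?_)
      obtain ⟨z, hz, rfl⟩ := mem_single h hc a Z (hle hv)
      have h1 : z ∈ U' := ⟨hz, hv⟩
      rw [e, Submodule.mem_bot] at h1
      rw [h1, smul_zero]
    · refine Or.inr (le_antisymm hle fun v hv => ?_)
      obtain ⟨z, hz, rfl⟩ := mem_single h hc a Z hv
      have h1 : z ∈ U' := e.symm ▸ hz
      exact h1.2

theorem relation (h : FC j u) (ht : ∀ i, Tw j u (σ i) (φ i)) (hf : ∀ i, FO (φ i)) (hc : Cmp j V) (hτ : ∀ i, Semi (σ i) (τ i))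
    (χ : B →+ ℝ) (hχ : Function.Injective χ) (X Z : Submodule K V) (hX : X.FG) (hs : StbF τ X)
    (hZX : Z ≤ X) {x : V} (hx : x ∈ X) (h2 : x ∈ Submodule.span L (Z : Set V)) :
    ∃ ε : ℝ, 0 < ε ∧ x ∈ usp K u {b | ∀ i, φ i b = b} (Z : Set V) ⊔
      usp K u {b | (∀ i, φ i b = b) ∧ ε ≤ χ b} {x} := by
  classical
  obtain ⟨t, t0, hw⟩ := clear_den h hc (Z : Set V) h2
  obtain ⟨b0, hb0, hmin⟩ := t.support.exists_min_image χ (Finsupp.support_nonempty_iff.2 t0)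
  obtain ⟨ε, hε, hle⟩ := exists_eps (t.support.erase b0) (fun b => χ (-b0 + b)) (by
    intro b hb
    obtain ⟨h3, h4⟩ := Finset.mem_erase.1 hb
    have h5 := lt_of_le_of_ne (hmin b h4) (fun e => h3 (hχ e).symm)
    rw [map_add, map_neg]
    linarith)
  refine ⟨ε, hε, ?_⟩
  have e1 : ev j u t = j (t b0) * u b0 + ev j u (t.erase b0) := by
    unfold ev
    exact (Finsupp.add_sum_erase t b0 (fun b k => j k * u b) hb0).symm
  obtain ⟨κ, hκ⟩ : ∃ κ, u (-b0) * (j (t b0) * u b0) = j κ := by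
    obtain ⟨k1, h3⟩ := h.nl (-b0) (t b0)
    obtain ⟨k2, h4⟩ := h.mul (-b0) b0
    obtain ⟨k3, -, h5⟩ := u_zero h.toCR
    refine ⟨k1 * k2 * k3, ?_⟩
    rw [← mul_assoc, h3, mul_assoc, h4, neg_add_cancel, h5, map_mul, map_mul, mul_assoc]
  have κ0 : κ ≠ 0 := by
    rintro rfl
    rw [map_zero] at hκ
    exact mul_ne_zero (h.ne _) (mul_ne_zero
      ((map_ne_zero j).2 (Finsupp.mem_support_iff.1 hb0)) (h.ne _)) hκ
  have hg : u (-b0) • ev j u (t.erase b0) • x ∈ usp K u {b | ε ≤ χ b} {x} := by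
    refine usp_mono ?_ subset_rfl (u_smul_mem h.toCR hc
      ((t.support.erase b0 : Finset B) : Set B) {x} (-b0)
      (ev_smul_mem hc _ rfl fun b hb => by rwa [Finsupp.support_erase] at hb))
    rintro _ ⟨b, hb, rfl⟩
    exact hle b hb
  have hw' : u (-b0) • ev j u t • x ∈ usp K u Set.univ (Z : Set V) :=
    usp_mono (Set.subset_univ _) subset_rfl (u_smul_mem h.toCR hc _ _ (-b0) hw)
  have e2 : u (-b0) • ev j u t • x = κ • x + u (-b0) • ev j u (t.erase b0) • x := by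
    rw [e1, add_smul, smul_add, smul_smul, hκ, ← hc]
  obtain ⟨g1, hg1, g2, hg2, eg⟩ := Submodule.mem_sup.1
    (usp_split (P1 := {b | (∀ i, φ i b = b) ∧ ε ≤ χ b}) (P2 := {b | ¬ ∀ i, φ i b = b}) _
      (fun b hb => (em (∀ i, φ i b = b)).imp (fun e => ⟨e, hb⟩) id) hg)
  obtain ⟨w1, hw1, w2, hw2, ew⟩ := Submodule.mem_sup.1
    (usp_split (P1 := {b | ∀ i, φ i b = b}) (P2 := {b | ¬ ∀ i, φ i b = b}) _ (fun b _ => em (∀ i, φ i b = b)) hw')
  have hxX : ({x} : Set V) ⊆ X := Set.singleton_subset_iff.2 hx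
  have e3 : κ • x + g1 - w1 = w2 - g2 := by
    have e4 : w1 + w2 = κ • x + (g1 + g2) := by rw [ew, eg, e2]
    rw [sub_eq_sub_iff_add_eq_add, add_comm w2 w1, e4, add_assoc]
  have e5 : κ • x + g1 - w1 = 0 := by
    refine dirF_lemma h ht hf hc hτ X hX hs _ ?_ ?_
    · refine Submodule.sub_mem _ (Submodule.add_mem _ (Submodule.smul_mem _ _ ?_) ?_) ?_
      · exact zero_mem h.toCR hc (fun i => map_zero (φ i)) hx
      · exact usp_mono (fun b hb => hb.1) hxX hg1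
      · exact usp_mono subset_rfl hZX hw1
    · rw [e3]
      exact Submodule.sub_mem _ (usp_mono subset_rfl hZX hw2) (usp_mono subset_rfl hxX hg2)
  have e6 : κ • x = w1 - g1 := by rw [eq_sub_iff_add_eq, ← sub_eq_zero, e5]
  rw [← Submodule.smul_mem_iff _ κ0, e6]
  exact Submodule.sub_mem _ (Submodule.mem_sup_left hw1) (Submodule.mem_sup_right hg1)

theorem iterate (h : CR j u) (hc : Cmp j V) (χ : B →+ ℝ) (Z : Set V) {x : V} {ε : ℝ}
    (hx : x ∈ usp K u {b | ∀ i, φ i b = b} Z ⊔ usp K u {b | (∀ i, φ i b = b) ∧ ε ≤ χ b} {x}) (k : ℕ) :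
    x ∈ usp K u {b | ∀ i, φ i b = b} Z ⊔ usp K u {b | (∀ i, φ i b = b) ∧ k * ε ≤ χ b} {x} := by
  induction k with
  | zero =>
    exact Submodule.mem_sup_right (zero_mem h hc ⟨fun i => map_zero (φ i), by simp⟩ rfl)
  | succ k ih =>
    refine (sup_le le_sup_left ((usp_sup _ ih).trans (sup_le_sup ?_ ?_))) hx
    · exact usp_usp h hc Z fun a ha b hb i => by
        rw [map_add, ha.1 i, hb i]
    · refine usp_usp h hc _ fun a ha b hb => ⟨fun i => by rw [map_add, ha.1 i, hb.1 i], ?_⟩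
      have h1 := ha.2
      have h2 := hb.2
      rw [map_add]
      push_cast
      linarith

end ZsubFx

theorem subF_rad (h : FC j u) (ht : ∀ i, Tw j u (σ i) (φ i)) (hf : ∀ i, FO (φ i))
    (hc : Cmp j V) (hτ : ∀ i, Semi (σ i) (τ i)) (χ : B →+ ℝ) (hχ : Function.Injective χ)
    (X Z : Submodule K V) (hX : X.FG) (hs : StbF τ X) (hZX : Z ≤ X) (hZ : SmpF τ Z) {ρ : ℕ}
    (hcod : Cod ρ ⊥ Z) (X' : Submodule K V) (hs' : StbF τ X') (h1 : X' ≤ X)
    (h2 : (X' : Set V) ⊆ Submodule.span L (Z : Set V)) : radF ρ τ X' = ⊥ := by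
  obtain ⟨Ψ, hΨ⟩ := sup_lemma h hc X hX
  obtain ⟨r, hr⟩ := (Ψ.finite_toSet.image χ).bddAbove
  refine radF_bot_of_simples (usp K u {b | (∀ i, φ i b = b) ∧ r < χ b} (X : Set V)) X'
    (fun a : {a // ∀ i, φ i a = a} => usp K u {a.1} (Z : Set V))
    (fun i => stb_usp h.toCR (ht i) hc (hτ i) (fun b hb => hb.1 i) (hs i)) hs'
    (fun a => ZsubFx.smp_single h.toCR ht hc hτ a.2 hZ)
    (fun a => Zsubx.cod_single h.toCR hc a.1 hcod) (fun x hx => ?_) ?_
  · obtain ⟨ε, hε, hrel⟩ := ZsubFx.relation h ht hf hc hτ χ hχ X Z hX hs hZX (h1 hx) (h2 hx)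
    obtain ⟨k, hk⟩ := exists_nat_gt (r / ε)
    rw [div_lt_iff₀ hε] at hk
    obtain ⟨p, hp, q, hq, e⟩ := Submodule.mem_sup.1 (ZsubFx.iterate h.toCR hc χ _ hrel k)
    rw [← e, add_comm]
    refine Submodule.add_mem_sup ?_ ?_
    rotate_left
    · refine (?_ : usp K u {b | ∀ i, φ i b = b} (Z : Set V) ≤ _) hp
      refine Submodule.span_le.2 ?_
      rintro _ ⟨b, hb, z, hz, rfl⟩
      exact Submodule.mem_iSup_of_mem (⟨b, hb⟩ : {a // ∀ i, φ i a = a}) (Zsubx.self_mem rfl hz)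
    · refine usp_mono ?_ (Set.singleton_subset_iff.2 (h1 hx)) hq
      exact fun b hb => ⟨hb.1, lt_of_lt_of_le hk hb.2⟩
  · refine (Submodule.eq_bot_iff _).2 fun v hv => hΨ v (h1 hv.1) (usp_mono ?_ subset_rfl hv.2)
    intro b hb hbΨ
    exact absurd (hr ⟨b, hbΨ, rfl⟩) (not_le.2 hb.2)

end Pool.Agent.Lib.MP_721660_al.Hs
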