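import Pool.Agent.Lib.MP_721660_al.Hs.Zin
import Pool.Agent.Lib.MP_721660_al.Hs.Zsub
import Pool.Agent.Lib.MP_721660_al.Ht.LemL

set_option autoImplicit false

namespace Pool.Agent.Lib.MP_721660_al.Hs
open Ht

open LemLx in
theorem lemLF {K L B ι : Type} [DivisionRing K] [DivisionRing L] [AddCommGroup B] {j : K →+* L}
    {u : B → L} {σ : ι → (L ≃+* L)} {φ : ι → (B ≃ₗ[ℤ] B)} (h : FC j u)
    (ht : ∀ i, Tw j u (σ i) (φ i)) (hf : ∀ i, FO (φ i)) (χ : B →+ ℝ)
    (hχ : Function.Injective χ) (ρ : ℕ) : DownF j σ ρ ρ := by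
  have aux : ∀ d : ℕ, d ≤ ρ → ∀ (V : Type) [AddCommGroup V] [Module L V] [Module K V]
      (τ : ι → (V ≃ₗ[ℤ] V)) (X : Submodule K V), Cmp j V → (∀ i, Semi (σ i) (τ i)) →
      Dim L d (X : Set V) → X.FG → StbF τ X → (radF ρ τ)^[d] X = ⊥ := by
    intro d
    induction d with
    | zero =>
      intro _ V _ _ _ τ X _ _ hd _ _
      obtain ⟨s, hs, hX⟩ := hd
      rw [Finset.card_eq_zero.1 (Nat.le_zero.1 hs)] at hX
      rw [Function.iterate_zero_apply, eq_bot_iff]
      intro x hx
      simpa using hX hx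
    | succ d ih =>
      intro hdρ V _ _ _ τ X hc hτ hd hX hs
      by_cases hb : X = ⊥
      · exact le_bot_iff.1 ((iterF_le _ _ _).trans hb.le)
      obtain ⟨Z, hZX, hZ⟩ := exists_smpF X hs hX hb
      have hdZ : Dim L ρ (Z : Set V) := by
        obtain ⟨s, h1, h2⟩ := hd
        exact ⟨s, h1.trans hdρ, fun x hx => h2 (hZX hx)⟩
      have hcod := smpF_cod h ht hf hc hτ χ hχ Z (fg_of_le hX hZX) hZ hdZ
      have hU : StbF τ (Submodule.span L (Z : Set V)) := fun i =>
        stb_of (span_mem (hτ i) fun x hx => (hZ.2.1 i x).2 hx)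
          (span_mem (semi_symm (hτ i)) fun x hx => (hZ.2.1 i).symm_mem hx)
      generalize hUe : Submodule.span L (Z : Set V) = U at hU
      choose τ' hτ' using fun i => exists_quot (hU i)
      letI : Module K (V ⧸ U) := Module.compHom (V ⧸ U) j
      have hcQ : Cmp j (V ⧸ U) := fun _ _ => rfl
      let g : V →ₗ[K] V ⧸ U :=
        { toFun := U.mkQ
          map_add' := fun x y => map_add _ x y
          map_smul' := fun k x => by
            rw [hc, map_smul]
            rfl }
      have hg : ∀ x, g x = U.mkQ x := fun _ => rfl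
      have hsemi : ∀ i, Semi (σ i) (τ' i) := by
        intro i c q
        obtain ⟨x, rfl⟩ := U.mkQ_surjective q
        rw [← map_smul, hτ', hτ', hτ i, map_smul]
      obtain ⟨z, hz, hz0⟩ := Submodule.exists_mem_ne_zero_of_ne_bot hZ.1
      have hfz : U.mkQ z = 0 := by
        rw [Submodule.mkQ_apply, Submodule.Quotient.mk_eq_zero, ← hUe]
        exact Submodule.subset_span hz
      have hdim : Dim L d ((X.map g : Submodule K (V ⧸ U)) : Set (V ⧸ U)) :=
        dim_drop U.mkQ hd (hZX hz) hz0 hfz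
      have hst : StbF τ' (X.map g) := by
        intro i
        refine stb_of ?_ ?_
        · rintro _ ⟨x, hx, rfl⟩
          exact ⟨τ i x, (hs i x).2 hx, (hτ' i x).symm⟩
        · rintro _ ⟨x, hx, rfl⟩
          refine ⟨(τ i).symm x, (hs i).symm_mem hx, ?_⟩
          apply (τ' i).injective
          rw [LinearEquiv.apply_symm_apply, hg, hτ', LinearEquiv.apply_symm_apply, hg]
      have hbot := ih (by omega) (V ⧸ U) τ' (X.map g) hcQ hsemi hdim (hX.map g) hst
      have hin := iterF_map (RingEquiv.refl K) g.toAddMonoidHom (fun k x => map_smul g k x)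
        (τ := τ) (τ' := τ') (W := X) (W' := X.map g) hs (fun x hx => ⟨x, hx, rfl⟩)
        (fun i x _ => (hτ' i x).symm) (le_refl ρ) d
      rw [Function.iterate_succ_apply']
      refine subF_rad h ht hf hc hτ χ hχ X Z hX hs hZX hZ hcod _ (hs.iter ρ d) (iterF_le _ _ _) ?_
      intro x hx
      have h1 := hin x hx
      rw [hbot, Submodule.mem_bot] at h1
      rw [hUe]
      exact (Submodule.Quotient.mk_eq_zero U).1 h1
  intro V _ _ _ τ X hc hτ hd hX hs
  exact aux ρ le_rfl V τ X hc hτ hd hX hs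

end Pool.Agent.Lib.MP_721660_al.Hs
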