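import Pool.Agent.Lib.MP_721660_al.Hs.LemL
import Pool.Agent.Lib.MP_721660_al.Hs.Tr
import Pool.Agent.Lib.MP_721660_al.Hs.Rel
import Pool.Agent.Lib.MP_721660_al.Ht.Tf2
import Pool.Agent.Lib.MP_721660_al.Ht.Mk
import Pool.Agent.Lib.MP_721660_al.Ht.Ser4

set_option autoImplicit false

namespace Pool.Agent.Lib.MP_721660_al.Hs
open Ht

variable {D M E : Type} [DivisionRing D] [AddCommGroup M] [Module D M] [Group E]
  {Γ : Type} [Group Γ] {π : E →* Γ} {A : Subgroup E} {m : ℕ} {β : E → Zm m}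
  {φ : E →* (Zm m ≃ₗ[ℤ] Zm m)}

theorem tfF_case [Nontrivial M] {n : ℕ} (IH : ∀ n' < n, MainF n') (h : Poly Γ n)
    (S : SL D M E) (hP : Plinth π A m β φ) (hs : S.Scal π.ker) (hg : S.FGen) (u : Zm m → E)
    (hu : ∀ b, u b ∈ A ∧ β (u b) = b) (hT : S.TFree u) : BdF S ⊤ := by
  obtain ⟨L, _, M', _, _, S', j, w, f, finj, fsm, fact, hA, hg', hFC, hTw⟩ :=
    tf_data h S hP hs hg u hu hT
  have := hP.normal
  obtain ⟨n', hn', hq⟩ := poly_quot h hP
  obtain ⟨n1, l, ρ, n1pos, hB⟩ := IH n' hn' L M' E (E ⧸ A) S' (QuotientGroup.mk' A) hq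
    (by rw [QuotientGroup.ker_mk']; exact hA) hg'
  obtain ⟨n0, n0pos, hfo⟩ := mk_fo m
  obtain ⟨χ, hχ⟩ := chi_exists m
  refine ⟨n1 * n0, ρ * l, ρ, Nat.mul_pos n1pos n0pos, fun ι e W _ hW hst => ?_⟩
  let _ : Module D M' := Module.compHom M' j
  have hc : Cmp j M' := fun _ _ => rfl
  let F : M →ₗ[D] M' := { toFun := f, map_add' := f.map_add, map_smul' := fun d x => fsm d x }
  let X : Submodule D M' := W.map F
  have hXf : X.FG := hW.map F
  have inv1 : ∀ g x, (S.act g).symm x = S.act g⁻¹ x := fun g x => by rw [map_inv]; rfl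
  have inv2 : ∀ g x, (S'.act g).symm x = S'.act g⁻¹ x := fun g x => by rw [map_inv]; rfl
  have x1 : ∀ i, ∀ x ∈ X, S'.act (e i) x ∈ X := by
    rintro i _ ⟨x, hx, rfl⟩
    exact ⟨S.act (e i) x, (hst i x).2 hx, fact (e i) x⟩
  have x2 : ∀ i, ∀ x ∈ X, S'.act (e i)⁻¹ x ∈ X := by
    rintro i _ ⟨x, hx, rfl⟩
    exact ⟨S.act (e i)⁻¹ x, inv1 (e i) x ▸ (hst i).symm_mem hx, fact (e i)⁻¹ x⟩
  have hX : StbF (fun i => S'.act (e i)) X := fun i =>
    stb_of (x1 i) fun x hx => inv2 (e i) x ▸ x2 i x hx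
  have sp : ∀ g, (∀ x ∈ X, S'.act g x ∈ X) → ∀ x ∈ Submodule.span L (X : Set M'),
      S'.act g x ∈ Submodule.span L (X : Set M') := fun g hg1 x hx => by
    induction hx using Submodule.span_induction with
    | mem x hx => exact Submodule.subset_span (hg1 x hx)
    | zero => rw [map_zero]; exact Submodule.zero_mem _
    | add x y _ _ h1 h2 => rw [map_add]; exact Submodule.add_mem _ h1 h2
    | smul c x _ h1 => rw [S'.act_smul]; exact Submodule.smul_mem _ _ h1
  have hW' : StbF (fun i => S'.act (e i)) (Submodule.span L (X : Set M')) := fun i =>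
    stb_of (sp (e i) (x1 i)) fun x hx => inv2 (e i) x ▸ sp (e i)⁻¹ (x2 i) x hx
  have hWf : (Submodule.span L (X : Set M')).FG := by
    obtain ⟨s, hs1⟩ := hXf
    refine ⟨s, le_antisymm (Submodule.span_mono fun x hx => ?_) (Submodule.span_le.2 fun x hx => ?_)⟩
    · rw [← hs1]
      exact Submodule.subset_span hx
    · rw [← hs1] at hx
      induction hx using Submodule.span_induction with
      | mem x hx => exact Submodule.subset_span hx
      | zero => exact Submodule.zero_mem _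
      | add x y _ _ h1 h2 => exact Submodule.add_mem _ h1 h2
      | smul c x _ h1 => exact Submodule.smul_mem _ (j c) h1
  have b1 := hB ι e _ le_top hWf hW'
  have b2 := iterF_mono (fun i => S'.act (e i) ^ n1) n0 ((hW'.pow n1).pow n0) le_rfl
    (le_refl ρ) l
  have e1 : (fun i => (S'.act (e i) ^ n1) ^ n0) = fun i => S'.act (e i ^ (n1 * n0)) :=
    funext fun i => by rw [map_pow, pow_mul]
  have e2 : (fun i => S'.act (e i) ^ (n1 * n0)) = fun i => S'.act (e i ^ (n1 * n0)) :=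
    funext fun i => by rw [map_pow]
  rw [b1, e1] at b2
  have hD := lemLF hFC (fun i => hTw (e i ^ (n1 * n0)))
    (fun i => by rw [pow_mul, map_pow]; exact hfo _) χ hχ ρ
  have b3 := downF_iter (τ := fun i => S'.act (e i ^ (n1 * n0))) hD hc
    (fun i c v => S'.act_smul _ c v) l
    (Submodule.span L (X : Set M')) X hXf (e2 ▸ hX.pow _) Submodule.subset_span
  have b4 := iterF_map (RingEquiv.refl D) f (fun d x => fsm d x)
    (τ := fun i => S.act (e i) ^ (n1 * n0))
    (τ' := fun i => S'.act (e i ^ (n1 * n0))) (W := W) (W' := X) (hst.pow _)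
    (fun x hx => ⟨x, hx, rfl⟩)
    (fun i x _ => by rw [← map_pow]; exact fact _ x) (le_refl ρ) (ρ * l)
  refine le_bot_iff.1 fun x hx => ?_
  have b5 : f x = 0 := (Submodule.mem_bot L).1 (b2 (b3 (b4 x hx)))
  exact (Submodule.mem_bot D).2 (finj (b5.trans f.map_zero.symm))


end Pool.Agent.Lib.MP_721660_al.Hs
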