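import Pool.Agent.Lib.MP_721660_al.Hs.Sta
import Pool.Agent.Lib.MP_721660_al.Ht.Start49

set_option autoImplicit false

namespace Pool.Agent.Lib.MP_721660_al.Hs
open Ht

open Pool.Agent.Cdim in
theorem ModPFx.aux (hM : ∀ n, MainF n) (Q M : Type) [Group Q] [AddCommGroup M] {n : ℕ}
    (h : Ht.Poly Q n) (ρ : Act Q M) (hN : Noeth ρ) (p : ℕ) [Fact p.Prime] [Module (ZMod p) M] :
    Stu (fun g (y : M) => ρ g y) := by
  classical
  let act : Q →* (M ≃ₗ[ℤ] M) :=
    { toFun := fun g =>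
        { toFun := ρ g
          invFun := ρ g⁻¹
          map_add' := map_add (ρ g)
          map_smul' := fun n x => map_zsmul (ρ g) n x
          left_inv := act_inv_act ρ g
          right_inv := act_act_inv ρ g }
      map_one' := LinearEquiv.ext fun x => act_one ρ x
      map_mul' := fun g g' => LinearEquiv.ext fun x => Pool.Agent.Cdim.act_mul ρ g g' x }
  have hsm : ∀ (g : Q) (d : ZMod p) (x : M), ρ g (d • x) = d • ρ g x := fun g d x =>
    ZMod.map_smul (ρ g : M →+ M) d x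
  let S : SL (ZMod p) M Q := { act := act, tw := 1, act_smul := fun e d x => hsm e d x }
  obtain ⟨-, -, -, -, s, hs⟩ := basic_st Q M ρ hN
  have hfg : S.FGen := by
    refine ⟨s, eq_top_iff.2 fun m _ => ?_⟩
    have hm : m ∈ spanOn ρ ⊤ (s : Set M) := by rw [hs]; trivial
    have : spanOn ρ ⊤ (s : Set M) ≤ (S.gen (s : Set M)).toAddSubgroup := by
      refine (AddSubgroup.closure_le _).2 ?_
      rintro x ⟨g, -, y, hy, rfl⟩
      exact Submodule.subset_span ⟨g, y, hy, rfl⟩
    exact this hm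
  have hsc : S.Scal (MonoidHom.id Q).ker := by
    intro e he
    have : e = 1 := he
    exact ⟨1, fun x => by rw [this, map_one, one_smul]; rfl⟩
  exact stu_of_bdF S (fun _ _ => rfl) h (hM n (ZMod p) M Q Q S (MonoidHom.id Q) h hsc hfg)

theorem stu_p (hM : ∀ n, MainF n) (Q M : Type) [Group Q] [AddCommGroup M] {n : ℕ} (h : Poly Q n)
    (ρ : Pool.Agent.Cdim.Act Q M) (hN : Pool.Agent.Cdim.Noeth ρ) (p : ℕ) (hp : p.Prime) (hpM : ∀ x : M, p • x = 0) :
    Stu (fun g (y : M) => ρ g y) := by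
  haveI : Fact p.Prime := ⟨hp⟩
  haveI : NeZero p := ⟨hp.ne_zero⟩
  exact @ModPFx.aux hM Q M _ _ n h ρ hN p _ (AddCommGroup.zmodModule hpM)

end Pool.Agent.Lib.MP_721660_al.Hs
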