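import Pool.Agent.Lib.MP_721660_al.Hs.Sta
import Pool.Agent.Lib.MP_721660_al.CD.Basic

set_option autoImplicit false

namespace Pool.Agent.Lib.MP_721660_al.Hs
open Ht

namespace ModQFx

theorem nil_iff {Q M N : Type} [AddCommGroup M] [AddCommGroup N] {a : Q → M → M} {b : Q → N → N}
    (f : M →+ N) (hf : ∀ x, f x = 0 → x = 0) (he : ∀ g x, b g (f x) = f (a g x)) (H : Set Q)
    (n : ℕ) : ∀ x : M, Nil a H {0} n x ↔ Nil b H {0} n (f x) := by
  induction n with
  | zero =>
    intro x
    exact ⟨fun h => by rw [show x = 0 from h, map_zero]; rfl, fun h => hf x h⟩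
  | succ n ih =>
    intro x
    refine forall_congr' fun g => forall_congr' fun _ => ?_
    rw [ih, map_sub, he]

end ModQFx

open Pool.Agent.Cdim TensorProduct in
theorem stu_tf (hM : ∀ n, MainF n) (Q M : Type) [Group Q] [AddCommGroup M] {n : ℕ} (h : Poly Q n)
    (ρ : Pool.Agent.Cdim.Act Q M) (hN : Pool.Agent.Cdim.Noeth ρ)
    (htf : ∀ (x : M) (k : ℕ), 0 < k → k • x = 0 → x = 0) :
    Stu (fun g (y : M) => ρ g y) := by
  classical
  let T : Q → (ℚ ⊗[ℤ] M →+ ℚ ⊗[ℤ] M) := fun g =>
    (LinearMap.lTensor ℚ (ρ g : M →+ M).toIntLinearMap).toAddMonoidHom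
  have hT : ∀ g (q : ℚ) (x : M), T g (q ⊗ₜ x) = q ⊗ₜ ρ g x := fun _ _ _ => rfl
  have hone : ∀ z, T 1 z = z := fun z => by
    induction z using TensorProduct.induction_on with
    | zero => rw [map_zero]
    | tmul q x => rw [hT, act_one]
    | add y z hy hz => rw [map_add, hy, hz]
  have hmul : ∀ g g' z, T (g * g') z = T g (T g' z) := fun g g' z => by
    induction z using TensorProduct.induction_on with
    | zero => simp only [map_zero]
    | tmul q x => rw [hT, hT, hT, Pool.Agent.Cdim.act_mul]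
    | add y z hy hz => simp only [map_add, hy, hz]
  have hsm : ∀ g (d : ℚ) z, T g (d • z) = d • T g z := fun g d z => by
    induction z using TensorProduct.induction_on with
    | zero => simp only [smul_zero, map_zero]
    | tmul q x => rw [smul_tmul', hT, hT, smul_tmul']
    | add y z hy hz => simp only [smul_add, map_add, hy, hz]
  let act : Q →* (@LinearEquiv ℤ ℤ _ _ (RingHom.id ℤ) (RingHom.id ℤ) _ _ (ℚ ⊗[ℤ] M) (ℚ ⊗[ℤ] M) _ _
      (AddCommGroup.toIntModule _) (AddCommGroup.toIntModule _)) :=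
    { toFun := fun g =>
        { toFun := T g
          invFun := T g⁻¹
          map_add' := map_add (T g)
          map_smul' := fun n x => map_zsmul (T g) n x
          left_inv := fun z => by rw [← hmul, inv_mul_cancel, hone]
          right_inv := fun z => by rw [← hmul, mul_inv_cancel, hone] }
      map_one' := LinearEquiv.ext fun x => hone x
      map_mul' := fun g g' => LinearEquiv.ext fun x => hmul g g' x }
  let S : SL ℚ (ℚ ⊗[ℤ] M) Q := { act := act, tw := 1, act_smul := fun e d x => hsm e d x }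
  let f : M →+ ℚ ⊗[ℤ] M := (TensorProduct.mk ℤ ℚ M 1).toAddMonoidHom
  have hf : ∀ x, f x = 0 → x = 0 := fun x hx => by
    obtain ⟨⟨s, hs⟩, h0⟩ := (IsLocalizedModule.eq_zero_iff (nonZeroDivisors ℤ)
      (TensorProduct.mk ℤ ℚ M 1)).1 hx
    have h1 : s • x = 0 := h0
    refine htf x s.natAbs (Int.natAbs_pos.2 (nonZeroDivisors.ne_zero hs)) ?_
    rcases Int.natAbs_eq s with e | e
    · rw [← natCast_zsmul, ← e, h1]
    · rw [e, neg_smul, neg_eq_zero, natCast_zsmul] at h1
      exact h1
  obtain ⟨-, -, -, -, s, hs⟩ := basic_st Q M ρ hN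
  have hfg : S.FGen := by
    refine ⟨s.image f, eq_top_iff.2 fun z _ => ?_⟩
    have h1 : ∀ m, f m ∈ S.gen (s.image f : Set (ℚ ⊗[ℤ] M)) := fun m => by
      have hm : m ∈ spanOn ρ ⊤ (s : Set M) := by rw [hs]; trivial
      have : spanOn ρ ⊤ (s : Set M) ≤
          (S.gen (s.image f : Set (ℚ ⊗[ℤ] M))).toAddSubgroup.comap f := by
        refine (AddSubgroup.closure_le _).2 ?_
        rintro x ⟨g, -, y, hy, rfl⟩
        exact Submodule.subset_span ⟨g, f y, by simpa using ⟨y, hy, rfl⟩, rfl⟩
      exact this hm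
    induction z using TensorProduct.induction_on with
    | zero => exact Submodule.zero_mem _
    | tmul q x =>
      have e : q ⊗ₜ[ℤ] x = q • f x := by
        change _ = q • ((1 : ℚ) ⊗ₜ[ℤ] x)
        rw [smul_tmul', smul_eq_mul, mul_one]
      rw [e]
      exact Submodule.smul_mem _ q (h1 x)
    | add y z hy hz => exact Submodule.add_mem _ (hy trivial) (hz trivial)
  have hsc : S.Scal (MonoidHom.id Q).ker := by
    intro e he
    have : e = 1 := he
    exact ⟨1, fun x => by rw [this, map_one, one_smul]; rfl⟩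
  obtain ⟨c, hc⟩ := stu_of_bdF S (fun _ _ => rfl) h (hM n ℚ _ Q Q S (MonoidHom.id Q) h hsc hfg)
  refine ⟨c, fun H k x hx => ?_⟩
  have key := ModQFx.nil_iff (a := fun g (y : M) => ρ g y) (b := fun g y => S.act g y) f hf
    (fun _ _ => rfl) (H : Set Q)
  exact (key c x).2 (hc H k _ ((key k x).1 hx))

end Pool.Agent.Lib.MP_721660_al.Hs
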