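import Pool.Agent.Lib.MP_721660_al.Hs.ModP
import Pool.Agent.Lib.MP_721660_al.Hs.ModQ

set_option autoImplicit false

namespace Pool.Agent.Lib.MP_721660_al.Hs
open Ht

namespace ModZx
open Pool.Agent.Cdim

variable {Q M : Type} [Group Q] [AddCommGroup M]

theorem nil_quo (ρ : Act Q M) (W : AddSubgroup M) (hW : Inv ρ W) (H : Set Q) (n : ℕ) :
    ∀ x : M, Nil (fun g (y : M) => ρ g y) H (W : Set M) n x ↔
      Nil (fun g (y : M ⧸ W) => quo ρ W hW g y) H {0} n (QuotientAddGroup.mk x) := by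
  induction n with
  | zero => exact fun x => (QuotientAddGroup.eq_zero_iff x).symm
  | succ n ih =>
    intro x
    refine forall₂_congr fun g _ => ?_
    rw [ih, QuotientAddGroup.mk_sub]
    exact Iff.rfl

theorem nil_sub (ρ : Act Q M) (W : AddSubgroup M) (hW : Inv ρ W) (H : Set Q) (n : ℕ) :
    ∀ x : W, Nil (fun g (y : W) => sub ρ W hW g y) H {0} n x ↔
      Nil (fun g (y : M) => ρ g y) H {0} n (x : M) := by
  induction n with
  | zero => exact fun x => (ZeroMemClass.coe_eq_zero (x := x)).symm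
  | succ n ih =>
    intro x
    refine forall₂_congr fun g _ => ?_
    rw [ih, AddSubgroupClass.coe_sub, sub_coe]

theorem nil_both (ρ : Act Q M) (H : Set Q) (U : Set M) (n k : ℕ) :
    ∀ x : M, Nil (fun g (y : M) => ρ g y) H U k x → Nil (fun g (y : M) => ρ g y) H {0} n x →
      Nil (fun g (y : M) => ρ g y) H
        {y | y ∈ U ∧ Nil (fun g (y : M) => ρ g y) H {0} n y} k x := by
  induction k with
  | zero => exact fun x h1 h2 => ⟨h1, h2⟩
  | succ k ih =>
    intro x h1 h2 g hg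
    have h3 : Nil (fun g (y : M) => ρ g y) H {0} (n + 1) x :=
      Nil.le (fun g _ y hy => by
        rw [Set.mem_singleton_iff.1 hy, map_zero, sub_zero]; rfl) (Nat.le_succ n) h2
    exact ih _ (h1 g hg) (h3 g hg)

theorem stu_ext (ρ : Act Q M) (W : AddSubgroup M) (hW : Inv ρ W)
    (h1 : Stu (fun g (y : W) => sub ρ W hW g y))
    (h2 : Stu (fun g (y : M ⧸ W) => quo ρ W hW g y)) : Stu (fun g (y : M) => ρ g y) := by
  obtain ⟨a, ha⟩ := h1
  obtain ⟨b, hb⟩ := h2
  refine ⟨b + a, fun H n x hx => Nil.trans ?_⟩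
  have h3 : Nil (fun g (y : M) => ρ g y) (H : Set Q) (W : Set M) n x :=
    Nil.mono subset_rfl (Set.singleton_subset_iff.2 W.zero_mem) hx
  have h4 := (nil_quo ρ W hW H b x).2 (hb H n _ ((nil_quo ρ W hW H n x).1 h3))
  refine Nil.mono subset_rfl ?_ (nil_both ρ H W n b x h4 hx)
  rintro y ⟨hy, hn⟩
  exact (nil_sub ρ W hW H a ⟨y, hy⟩).1 (ha H n _ ((nil_sub ρ W hW H n ⟨y, hy⟩).2 hn))

/-- The elements killed by `p`. -/
def kil (M : Type) [AddCommGroup M] (p : ℕ) : AddSubgroup M where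
  carrier := {x | p • x = 0}
  zero_mem' := smul_zero p
  add_mem' {x y} hx hy := by
    have hx' : p • x = 0 := hx
    have hy' : p • y = 0 := hy
    show p • (x + y) = 0
    rw [smul_add, hx', hy', add_zero]
  neg_mem' {x} hx := by
    have hx' : p • x = 0 := hx
    show p • (-x) = 0
    rw [smul_neg, hx', neg_zero]

theorem kil_inv (ρ : Act Q M) (p : ℕ) : Inv ρ (kil M p) := fun g m hm => by
  have hm' : p • m = 0 := hm
  show p • ρ g m = 0
  rw [← map_nsmul, hm', map_zero]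

theorem stu_exp (hM : ∀ n, MainF n) (Q : Type) [Group Q] {n : ℕ} (h : Poly Q n) (t : ℕ) :
    0 < t → ∀ (M : Type) [AddCommGroup M] (ρ : Act Q M), Noeth ρ →
      (∀ (m : M) (k : ℕ), 0 < k → k • m = 0 → t • m = 0) → Stu (fun g (y : M) => ρ g y) := by
  induction t using Nat.strong_induction_on with
  | _ t ih =>
    intro ht M _ ρ hN htor
    by_cases h1 : t = 1
    · subst h1
      exact stu_tf hM Q M h ρ hN fun x k hk hx => by simpa using htor x k hk hx
    obtain ⟨p, hp, s, rfl⟩ := Nat.exists_prime_and_dvd h1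
    have hs : 0 < s := Nat.pos_of_mul_pos_left ht
    have hB := basic_st Q M ρ hN
    refine stu_ext ρ (kil M p) (kil_inv ρ p)
      (stu_p hM Q _ h _ (hB.1 _ _) p hp fun x => Subtype.ext x.2)
      (ih s (lt_mul_of_one_lt_left hs hp.one_lt) hs _ _ (hB.2.1 _ _) fun y k hk hy => ?_)
    obtain ⟨m, rfl⟩ := QuotientAddGroup.mk_surjective y
    rw [← QuotientAddGroup.mk_nsmul, QuotientAddGroup.eq_zero_iff] at hy ⊢
    have h2 : p • k • m = 0 := hy
    show p • s • m = 0
    rw [← mul_smul] at h2 ⊢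
    exact htor m _ (Nat.mul_pos hp.pos hk) h2

end ModZx

theorem stu_all (hM : ∀ n, MainF n) (Q M : Type) [Group Q] [AddCommGroup M] {n : ℕ}
    (h : Poly Q n) (ρ : Pool.Agent.Cdim.Act Q M) (hN : Pool.Agent.Cdim.Noeth ρ) : Stu (fun g (y : M) => ρ g y) := by
  obtain ⟨t, ht, htor⟩ := (Pool.Agent.Cdim.basic_st Q M ρ hN).2.2.2.1
  exact ModZx.stu_exp hM Q h t ht M ρ hN htor

end Pool.Agent.Lib.MP_721660_al.Hs
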