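import Pool.Agent.Lib.MP_721660_al.Hs.Defs

set_option autoImplicit false

namespace Pool.Agent.Lib.MP_721660_al.Hs
open Ht

open Pointwise in
theorem neumann_sep {G X : Type} [Group G] [MulAction G X] (F Ψ : Finset X)
    (h : ∀ b ∈ F, (MulAction.orbit G b).Infinite) : ∃ g : G, ∀ b ∈ F, g • b ∉ Ψ := by
  classical
  by_contra hn
  push Not at hn
  have hr : ∀ z : X × X, ∃ r : G, ∀ g : G, g • z.1 = z.2 → r • z.1 = z.2 := by
    intro z
    by_cases hz : ∃ g : G, g • z.1 = z.2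
    · obtain ⟨g, hg⟩ := hz
      exact ⟨g, fun _ _ => hg⟩
    · exact ⟨1, fun g hg => absurd ⟨g, hg⟩ hz⟩
  choose r hr using hr
  have hc : ⋃ z ∈ F ×ˢ Ψ, r z • ((MulAction.stabilizer G z.1 : Subgroup G) : Set G) =
      Set.univ := by
    refine Set.eq_univ_of_forall fun g => ?_
    obtain ⟨b, hb, hg⟩ := hn g
    refine Set.mem_iUnion₂.2 ⟨(b, g • b), Finset.mem_product.2 ⟨hb, hg⟩, ?_⟩
    have h1 : r (b, g • b) • b = g • b := hr (b, g • b) g rfl
    refine ⟨(r (b, g • b))⁻¹ * g, ?_, by simp⟩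
    show ((r (b, g • b))⁻¹ * g) • b = b
    rw [mul_smul, inv_smul_eq_iff, h1]
  obtain ⟨z, hz, hf⟩ := Subgroup.exists_finiteIndex_of_leftCoset_cover hc
  have h2 := hf.index_ne_zero
  rw [MulAction.index_stabilizer] at h2
  exact h2 (h z.1 (Finset.mem_product.1 hz).1).ncard

end Pool.Agent.Lib.MP_721660_al.Hs
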