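import Pool.Agent.Lib.MP_721660_al.Hs.Defs

set_option autoImplicit false

namespace Pool.Agent.Lib.MP_721660_al.Hs
open Ht

variable {D M Q : Type} [DivisionRing D] [AddCommGroup M] [Module D M]

theorem Nil.mono {a : Q → M → M} {H H' : Set Q} {U U' : Set M} (hH : H' ⊆ H) (hU : U ⊆ U')
    {n : ℕ} {x : M} (h : Nil a H U n x) : Nil a H' U' n x := by
  induction n generalizing x with
  | zero => exact hU h
  | succ n ih => exact fun g hg => ih (h g (hH hg))

theorem Nil.trans {a : Q → M → M} {H : Set Q} {U : Set M} {n k : ℕ} {x : M}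
    (h : Nil a H {y | Nil a H U k y} n x) : Nil a H U (n + k) x := by
  induction n generalizing x with
  | zero => rw [Nat.zero_add]; exact h
  | succ n ih =>
    rw [Nat.add_right_comm]
    exact fun g hg => ih (h g hg)

theorem NilBx.succ {a : Q → M → M} {H : Set Q} {U : Set M}
    (hU : ∀ g ∈ H, ∀ y ∈ U, a g y - y ∈ U) {n : ℕ} {x : M} (h : Nil a H U n x) :
    Nil a H U (n + 1) x := by
  induction n generalizing x with
  | zero => exact fun g hg => hU g hg x h
  | succ n ih => exact fun g hg => ih (h g hg)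

theorem Nil.le {a : Q → M → M} {H : Set Q} {U : Set M}
    (hU : ∀ g ∈ H, ∀ y ∈ U, a g y - y ∈ U) {n k : ℕ} (hnk : n ≤ k) {x : M}
    (h : Nil a H U n x) : Nil a H U k x := by
  induction k, hnk using Nat.le_induction with
  | base => exact h
  | succ k _ ih => exact NilBx.succ hU ih

theorem nil_iInter {a : Q → M → M} {H : Set Q} {κ : Type} (U : κ → Set M) {n : ℕ} {x : M}
    (h : ∀ i, Nil a H (U i) n x) : Nil a H (⋂ i, U i) n x := by
  induction n generalizing x with
  | zero => exact Set.mem_iInter.2 h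
  | succ n ih => exact fun g hg => ih fun i => h i g hg

namespace NilBx

/-- the subspace of the vectors carried into `U` in `n` steps -/
def sub (a : Q → M →ₗ[D] M) (H : Set Q) (U : Submodule D M) : ℕ → Submodule D M
  | 0 => U
  | n + 1 => ⨅ g ∈ H, (sub a H U n).comap (a g - LinearMap.id)

theorem mem_sub (a : Q → M →ₗ[D] M) (H : Set Q) (U : Submodule D M) (n : ℕ) (x : M) :
    x ∈ sub a H U n ↔ Nil (fun g y => a g y) H (U : Set M) n x := by
  induction n generalizing x with
  | zero => exact Iff.rfl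
  | succ n ih =>
    simp only [sub, Submodule.mem_iInf, Submodule.mem_comap, LinearMap.sub_apply,
      LinearMap.id_apply, ih]
    exact Iff.rfl

/-- a strictly increasing chain has length at most the dimension -/
theorem chain {V : Type} [AddCommGroup V] [Module D V] [Module.Finite D V]
    (P : ℕ → Submodule D V) (hm : ∀ k, P k ≤ P (k + 1)) (r : ℕ) (hr : Module.finrank D V ≤ r) :
    P r = ⊤ ∨ ∃ k < r, P (k + 1) ≤ P k := by
  by_contra hc
  rw [not_or] at hc
  have h1 : ∀ k ≤ r, k ≤ Module.finrank D (P k) := by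
    intro k
    induction k with
    | zero => exact fun _ => Nat.zero_le _
    | succ k ih =>
      intro hk
      have h2 : P k < P (k + 1) := lt_of_le_not_ge (hm k) fun h => hc.2 ⟨k, hk, h⟩
      have h3 := Submodule.finrank_lt_finrank_of_lt h2
      have h4 := ih (Nat.le_of_succ_le hk)
      omega
  have h5 := Submodule.finrank_lt hc.1
  have h6 := h1 r le_rfl
  omega

end NilBx

/-- The vectors carried into a subspace form a subspace when the maps are linear. -/
theorem exists_nilSub (a : Q → M →ₗ[D] M) (H : Set Q) (U : Submodule D M) (n : ℕ) :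
    ∃ N : Submodule D M, ∀ x, x ∈ N ↔ Nil (fun g y => a g y) H (U : Set M) n x :=
  ⟨NilBx.sub a H U n, NilBx.mem_sub a H U n⟩

/-- Nilpotent action on a quotient of dimension at most `ρ` has class at most `ρ`. -/
theorem nil_of_cod (a : Q → M →ₗ[D] M) (H : Set Q) {U W : Submodule D M} {ρ n : ℕ}
    (hU : ∀ g ∈ H, ∀ y ∈ U, a g y ∈ U) (hW : ∀ g ∈ H, ∀ y ∈ W, a g y ∈ W) (hUW : U ≤ W)
    (hc : Cod ρ U W) (hn : ∀ x ∈ W, Nil (fun g y => a g y) H (U : Set M) n x) :
    ∀ x ∈ W, Nil (fun g y => a g y) H (U : Set M) ρ x := by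
  classical
  obtain ⟨s, hs, hsW⟩ := hc
  have hU' : ∀ g ∈ H, ∀ y ∈ (U : Set M), (fun g y => a g y) g y - y ∈ (U : Set M) :=
    fun g hg y hy => U.sub_mem (hU g hg y hy) hy
  have hmono : ∀ {k l : ℕ}, k ≤ l → NilBx.sub a H U k ≤ NilBx.sub a H U l := fun hkl x hx =>
    (NilBx.mem_sub a H U _ x).2 (((NilBx.mem_sub a H U _ x).1 hx).le hU' hkl)
  have hUk : ∀ k, U ≤ NilBx.sub a H U k := fun k => hmono (Nat.zero_le k)
  -- the image of `W` in the quotient
  have hle : W.map U.mkQ ≤ Submodule.span D ((s.image U.mkQ : Finset (M ⧸ U)) : Set (M ⧸ U)) := by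
    refine (Submodule.map_mono hsW).trans ?_
    rw [Submodule.map_sup, Submodule.mkQ_map_self, bot_sup_eq, Submodule.map_span,
      Finset.coe_image]
  haveI : Module.Finite D
      (Submodule.span D ((s.image U.mkQ : Finset (M ⧸ U)) : Set (M ⧸ U))) :=
    Module.Finite.span_of_finite D (Finset.finite_toSet _)
  haveI : Module.Finite D (W.map U.mkQ) := Submodule.finiteDimensional_of_le hle
  have hr : Module.finrank D (W.map U.mkQ) ≤ ρ :=
    (Submodule.finrank_mono hle).trans
      ((finrank_span_finset_le_card _).trans (Finset.card_image_le.trans hs))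
  have key : ∀ k x, ∀ hx : x ∈ W, (⟨U.mkQ x, Submodule.mem_map_of_mem hx⟩ : W.map U.mkQ) ∈
      ((NilBx.sub a H U k).map U.mkQ).comap (W.map U.mkQ).subtype ↔ x ∈ NilBx.sub a H U k := by
    intro k x hx
    rw [Submodule.mem_comap, Submodule.subtype_apply, ← Submodule.mem_comap,
      Submodule.comap_map_mkQ, sup_eq_right.2 (hUk k)]
  rcases NilBx.chain (fun k => ((NilBx.sub a H U k).map U.mkQ).comap (W.map U.mkQ).subtype)
    (fun k => Submodule.comap_mono (Submodule.map_mono (hmono (Nat.le_succ k)))) ρ hr with h | h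
  · intro x hx
    refine (NilBx.mem_sub a H U ρ x).1 ((key ρ x hx).1 ?_)
    rw [h]; exact Submodule.mem_top
  · obtain ⟨k, hk, h⟩ := h
    have h0 : ∀ x ∈ W, Nil (fun g y => a g y) H (U : Set M) (k + 1) x →
        Nil (fun g y => a g y) H (U : Set M) k x := fun x hx h1 =>
      (NilBx.mem_sub a H U k x).1 ((key k x hx).1
        (h ((key (k + 1) x hx).2 ((NilBx.mem_sub a H U (k + 1) x).2 h1))))
    have h2 : ∀ j, ∀ x ∈ W, Nil (fun g y => a g y) H (U : Set M) (k + j) x →
        Nil (fun g y => a g y) H (U : Set M) k x := by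
      intro j
      induction j with
      | zero => exact fun _ _ h1 => h1
      | succ j ih =>
        intro x hx h1
        exact h0 x hx fun g hg => ih _ (W.sub_mem (hW g hg x hx) hx) (h1 g hg)
    intro x hx
    exact (h2 n x hx ((hn x hx).le hU' (Nat.le_add_left n k))).le hU' hk.le

end Pool.Agent.Lib.MP_721660_al.Hs
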