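import Pool.Agent.Lib.MP_721660_al.Hs.Neu
import Pool.Agent.Lib.MP_721660_al.Ht.Per

set_option autoImplicit false

namespace Pool.Agent.Lib.MP_721660_al.Hs
open Ht

variable {K L B V ι : Type} [DivisionRing K] [DivisionRing L] [AddCommGroup B] [AddCommGroup V]
  [Module L V] [Module K V] {j : K →+* L} {u : B → L} {σ : ι → (L ≃+* L)}
  {φ : ι → (B ≃ₗ[ℤ] B)} {τ : ι → (V ≃ₗ[ℤ] V)}

namespace PerFx

/-- `t` preserves `X` and moves the supports by `f`. -/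
def Mv (u : B → L) (X : Submodule K V) (f : B ≃ₗ[ℤ] B) (t : V ≃ₗ[ℤ] V) : Prop :=
  (∀ x ∈ X, t x ∈ X) ∧ ∀ (P P' : Set B), (∀ b ∈ P, f b ∈ P') →
    ∀ v ∈ usp K u P (X : Set V), t v ∈ usp K u P' (X : Set V)

theorem mv_one (X : Submodule K V) : Mv u X 1 1 :=
  ⟨fun _ hx => hx, fun _ _ hP _ hv => usp_mono (fun b hb => hP b hb) subset_rfl hv⟩

theorem Mv.mul {X : Submodule K V} {f f' : B ≃ₗ[ℤ] B} {t t' : V ≃ₗ[ℤ] V} (h : Mv u X f t)
    (h' : Mv u X f' t') : Mv u X (f * f') (t * t') :=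
  ⟨fun x hx => h.1 _ (h'.1 x hx), fun P P' hP v hv =>
    h.2 {c | f c ∈ P'} P' (fun _ hc => hc) _ (h'.2 P {c | f c ∈ P'} (fun b hb => hP b hb) v hv)⟩

/-- The automorphisms of `B` that come with a map of `V` moving the supports. -/
def grp (u : B → L) (X : Submodule K V) : Subgroup (B ≃ₗ[ℤ] B) where
  carrier := {f | ∃ t : V ≃ₗ[ℤ] V, Mv u X f t ∧ Mv u X f⁻¹ t⁻¹}
  one_mem' := ⟨1, mv_one X, by rw [inv_one, inv_one]; exact mv_one X⟩
  mul_mem' := by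
    rintro f f' ⟨t, h1, h2⟩ ⟨t', h1', h2'⟩
    exact ⟨t * t', h1.mul h1', by rw [mul_inv_rev, mul_inv_rev]; exact h2'.mul h2⟩
  inv_mem' := by
    rintro f ⟨t, h1, h2⟩
    exact ⟨t⁻¹, h2, by rw [inv_inv, inv_inv]; exact h1⟩

theorem mem_grp {s : L ≃+* L} {f : B ≃ₗ[ℤ] B} {t : V ≃ₗ[ℤ] V} (h : CR j u) (ht : Tw j u s f)
    (hc : Cmp j V) (hτ : Semi s t) {X : Submodule K V} (hX : Stb t X) : f ∈ grp u X := by
  refine ⟨t, ⟨fun x hx => (hX x).2 hx, fun P P' hP v hv => tau_usp ht hc hτ hP hX hv⟩,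
    fun x hx => hX.symm_mem hx, fun P P' hP v hv => ?_⟩
  refine Evx.map_usp hc t.symm.toAddEquiv.toAddMonoidHom s.symm (fun c v => ?_) (fun k => ?_)
    (fun b hb => ?_) (fun x hx => hX.symm_mem hx) hv
  · show t.symm (c • v) = s.symm c • t.symm v
    rw [LinearEquiv.symm_apply_eq, hτ, RingEquiv.apply_symm_apply, LinearEquiv.apply_symm_apply]
  · obtain ⟨k', e⟩ := ht.jr k
    exact ⟨k', by rw [← e, RingEquiv.symm_apply_apply]⟩
  · obtain ⟨k, e⟩ := ht.uu (f.symm b)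
    obtain ⟨k', e'⟩ := ht.jr k
    rw [LinearEquiv.apply_symm_apply] at e
    have h0 : j k ≠ 0 := fun e0 => h.ne (f.symm b) (by
      rw [e0, zero_mul] at e
      exact (map_eq_zero_iff s s.injective).1 e)
    refine ⟨k'⁻¹, f.symm b, hP b hb, ?_⟩
    rw [RingEquiv.symm_apply_eq, map_mul, map_inv₀, map_inv₀, e', e, inv_mul_cancel_left₀ h0]

end PerFx

theorem perF_lemma (h : FC j u) (ht : ∀ i, Tw j u (σ i) (φ i)) (hf : ∀ i, FO (φ i))
    (hc : Cmp j V) (hτ : ∀ i, Semi (σ i) (τ i)) (X : Submodule K V) (hX : X.FG) (hs : StbF τ X) :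
    ∀ v ∈ X, v ∈ usp K u {b | ¬ ∀ i, φ i b = b} (X : Set V) → v = 0 := by
  intro v hv hu
  obtain ⟨Ψ, hΨ⟩ := sup_lemma h hc X hX
  obtain ⟨F, hF, hvF⟩ := Perx.mem_fin h.toCR hc _ X hu
  have hm : ∀ i, φ i ∈ PerFx.grp u X := fun i =>
    PerFx.mem_grp h.toCR (ht i) hc (hτ i) (hs i)
  have horb : ∀ b ∈ F, (MulAction.orbit (PerFx.grp u X) b).Infinite := by
    intro b hb
    obtain ⟨i, hi⟩ := not_forall.1 (hF b hb)
    refine (Set.infinite_range_of_injective (Perx.inj_orbit (hf i) hi)).mono ?_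
    rintro _ ⟨n, rfl⟩
    exact ⟨⟨φ i ^ n, Subgroup.pow_mem _ (hm i) n⟩, rfl⟩
  obtain ⟨g, hg⟩ := neumann_sep F Ψ horb
  obtain ⟨t, h1, _⟩ := g.2
  have h2 : t v = 0 := hΨ _ (h1.1 v hv) (h1.2 _ _ (fun b hb => hg b hb) v hvF)
  exact t.injective (by rw [h2, map_zero])

theorem dirF_lemma (h : FC j u) (ht : ∀ i, Tw j u (σ i) (φ i)) (hf : ∀ i, FO (φ i))
    (hc : Cmp j V) (hτ : ∀ i, Semi (σ i) (τ i)) (X : Submodule K V) (hX : X.FG) (hs : StbF τ X) :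
    ∀ v ∈ usp K u {b | ∀ i, φ i b = b} (X : Set V),
      v ∈ usp K u {b | ¬ ∀ i, φ i b = b} (X : Set V) → v = 0 := by
  classical
  intro v hv hu
  obtain ⟨F, hF, hvF⟩ := Perx.mem_fin h.toCR hc _ X hv
  have hfix : ∀ i, ∀ b ∈ ((insert 0 F : Finset B) : Set B), φ i b = b := by
    intro i b hb
    rcases Finset.mem_insert.1 (Finset.mem_coe.1 hb) with rfl | hb
    · exact map_zero (φ i)
    · exact hF b hb i
  have hle : (X : Set V) ⊆ (usp K u ((insert 0 F : Finset B) : Set B) (X : Set V) : Set V) := by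
    intro x hx
    obtain ⟨k, hk, hu0⟩ := u_zero h.toCR
    refine Submodule.subset_span ⟨0, by simp, k⁻¹ • x, X.smul_mem _ hx, ?_⟩
    rw [hu0, ← hc, smul_smul, mul_inv_cancel₀ hk, one_smul]
  refine perF_lemma h ht hf hc hτ _ (usp_fg h.toCR hc (insert 0 F) hX)
    (fun i => stb_usp h.toCR (ht i) hc (hτ i) (hfix i) (hs i)) v ?_ (usp_mono subset_rfl hle hu)
  exact usp_mono (by simp) subset_rfl hvF

end Pool.Agent.Lib.MP_721660_al.Hs
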