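import Pool.Agent.Lib.MP_721660_al.Hs.Defs
import Pool.Agent.Lib.MP_721660_al.Ht.RadMap

set_option autoImplicit false

namespace Pool.Agent.Lib.MP_721660_al.Hs
open Ht

variable {D D' M M' ι : Type} [DivisionRing D] [DivisionRing D'] [AddCommGroup M] [Module D M]
  [AddCommGroup M'] [Module D' M']

theorem iterF_map (σ : D ≃+* D') (f : M →+ M') (hf : ∀ (d : D) (x : M), f (d • x) = σ d • f x)
    {τ : ι → (M ≃ₗ[ℤ] M)} {τ' : ι → (M' ≃ₗ[ℤ] M')} {W : Submodule D M} {W' : Submodule D' M'}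
    (hs : StbF τ W) (hW : ∀ x ∈ W, f x ∈ W') (hi : ∀ i, ∀ x ∈ W, f (τ i x) = τ' i (f x))
    {ρ ρ' : ℕ} (hρ : ρ' ≤ ρ) (l : ℕ) :
    ∀ x ∈ (radF ρ τ)^[l] W, f x ∈ (radF ρ' τ')^[l] W' := by
  induction l with
  | zero => exact hW
  | succ l ih =>
    intro x hx
    rw [Function.iterate_succ_apply', mem_radF] at hx ⊢
    refine ⟨ih x hx.1, fun U' h1 _ h3 => ?_⟩
    have st := hs.iter ρ l
    refine (RadMapx.mem_pre.1 (hx.2 (RadMapx.pre σ f hf ((radF ρ τ)^[l] W) U') ?_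
      (fun y hy => hy.1) ((cod_comap σ f hf ih h3 fun _ => Iff.rfl).mono hρ))).2
    intro i y
    rw [RadMapx.mem_pre, RadMapx.mem_pre, st i y]
    exact and_congr_right fun hy => by rw [hi i y (iterF_le ρ l W hy), h1 i]

theorem iterF_mono (τ : ι → (M ≃ₗ[ℤ] M)) (k : ℕ) {W W' : Submodule D M}
    (hs : StbF (fun i => τ i ^ k) W) (hW : W ≤ W') {ρ ρ' : ℕ} (hρ : ρ' ≤ ρ) (l : ℕ) :
    (radF ρ (fun i => τ i ^ k))^[l] W ≤ (radF ρ' τ)^[l] W' := by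
  induction l with
  | zero => exact hW
  | succ l ih =>
    intro x hx
    rw [Function.iterate_succ_apply', mem_radF] at hx ⊢
    refine ⟨ih hx.1, fun U' h1 _ h3 => ?_⟩
    exact (hx.2 ((radF ρ (fun i => τ i ^ k))^[l] W ⊓ U') ((hs.iter ρ l).inf (h1.pow k))
      inf_le_left
      ((cod_comap (RingEquiv.refl D) (AddMonoidHom.id M) (fun _ _ => rfl) (fun _ hy => ih hy) h3
        fun _ => Iff.rfl).mono hρ)).2

theorem iterF_mono' {τ : ι → (M ≃ₗ[ℤ] M)} {W W' : Submodule D M} (hs : StbF τ W)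
    (hW : W ≤ W') {ρ ρ' : ℕ} (hρ : ρ' ≤ ρ) (l : ℕ) :
    (radF ρ τ)^[l] W ≤ (radF ρ' τ)^[l] W' := by
  have e : (fun i => τ i ^ 1) = τ := funext fun i => pow_one _
  have := iterF_mono τ 1 (W := W) (by rwa [e]) hW hρ l
  rwa [e] at this

end Pool.Agent.Lib.MP_721660_al.Hs
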