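import Pool.Agent.Lib.MP_721660_al.Hs.NilB
import Pool.Agent.Lib.MP_721660_al.Hs.Idx
import Pool.Agent.Lib.MP_721660_al.Ht.RgB

set_option autoImplicit false

namespace Pool.Agent.Lib.MP_721660_al.Hs
open Ht

variable {D M E : Type} [DivisionRing D] [AddCommGroup M] [Module D M] [Group E]

namespace StaFx

/-- A group element as a linear map. -/
def lin (S : SL D M E) (htw : ∀ e d, S.tw e d = d) (g : E) : M →ₗ[D] M where
  toFun y := S.act g y
  map_add' y z := map_add _ y z
  map_smul' d y := by rw [S.act_smul, htw]; rfl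

theorem nil_conj (S : SL D M E) {K : Set E} {h : E} (hK : ∀ k ∈ K, h⁻¹ * k * h ∈ K) (n : ℕ) :
    ∀ x : M, Nil (fun g y => S.act g y) K {0} n x →
      Nil (fun g y => S.act g y) K {0} n (S.act h x) := by
  induction n with
  | zero =>
    intro x hx
    have e : x = 0 := hx
    show S.act h x = 0
    rw [e, map_zero]
  | succ n ih =>
    intro x hx k hk
    have e : S.act k (S.act h x) - S.act h x = S.act h (S.act (h⁻¹ * k * h) x - x) := by
      rw [map_sub, ← act_mul, ← act_mul]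
      congr 3
      group
    show Nil _ _ _ _ (S.act k (S.act h x) - S.act h x)
    rw [e]
    exact ih _ (hx _ (hK k hk))

theorem inv_sup {E' : Type} [Group E'] (T : SL D M E') {U V : Submodule D M} (hU : T.Inv U)
    (hV : T.Inv V) : T.Inv (U ⊔ V) := by
  intro e x hx
  obtain ⟨u, hu, v, hv, rfl⟩ := Submodule.mem_sup.1 hx
  rw [map_add]
  exact Submodule.add_mem_sup (hU e u hu) (hV e v hv)

theorem pw_le (H : Subgroup E) (n : ℕ) : pw H n ≤ H := by
  refine (Subgroup.closure_le _).2 ?_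
  rintro _ ⟨h, hh, rfl⟩
  exact H.pow_mem hh n

theorem pw_conj (H : Subgroup E) (n : ℕ) {h : E} (hh : h ∈ H) :
    ∀ k ∈ pw H n, h⁻¹ * k * h ∈ pw H n := by
  intro k hk
  induction hk using Subgroup.closure_induction with
  | mem y hy =>
    obtain ⟨g, hg, rfl⟩ := hy
    refine Subgroup.subset_closure ⟨h⁻¹ * g * h, H.mul_mem (H.mul_mem (H.inv_mem hh) hg) hh, ?_⟩
    have := conj_pow (a := h⁻¹) (b := g) (i := n)
    rw [inv_inv] at this
    exact this.symm
  | one => simpa using (pw H n).one_mem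
  | mul y z _ _ hy hz =>
    have e : h⁻¹ * (y * z) * h = (h⁻¹ * y * h) * (h⁻¹ * z * h) := by group
    rw [e]; exact (pw H n).mul_mem hy hz
  | inv y _ hy =>
    have e : h⁻¹ * y⁻¹ * h = (h⁻¹ * y * h)⁻¹ := by group
    rw [e]; exact (pw H n).inv_mem hy

theorem pw_stb (S : SL D M E) (H : Subgroup E) (n : ℕ) {U : Submodule D M}
    (hU : StbF (fun i : H => S.act i.1 ^ n) U) : ∀ k ∈ pw H n, ∀ y ∈ U, S.act k y ∈ U := by
  have key : ∀ k ∈ pw H n, ∀ y, S.act k y ∈ U ↔ y ∈ U := by
    intro k hk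
    induction hk using Subgroup.closure_induction with
    | mem y hy =>
      obtain ⟨g, hg, rfl⟩ := hy
      intro y
      rw [map_pow]
      exact hU ⟨g, hg⟩ y
    | one => intro y; rw [RgBx.act_one]
    | mul y z _ _ hy hz => intro x; rw [act_mul, hy, hz]
    | inv y _ hy => intro x; rw [← hy, RgBx.inv_act]
  exact fun k hk y hy => (key k hk y).2 hy

theorem layer (S : SL D M E) (htw : ∀ e d, S.tw e d = d) (H : Subgroup E) (n₀ ρ n : ℕ)
    {W : Submodule D M} (hW : StbF (fun i : H => S.act i.1 ^ n₀) W)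
    (hn : ∀ y ∈ W, Nil (fun g y => S.act g y) (pw H n₀ : Set E) {0} n y) :
    ∀ y ∈ W, Nil (fun g y => S.act g y) (pw H n₀ : Set E)
      (radF ρ (fun i : H => S.act i.1 ^ n₀) W : Set M) ρ y := by
  intro y hy
  have h1 := nil_iInter (a := fun g y => S.act g y) (H := (pw H n₀ : Set E))
    (fun U : {U : Submodule D M // StbF (fun i : H => S.act i.1 ^ n₀) U ∧ U ≤ W ∧ Cod ρ U W} =>
      (U.1 : Set M)) (n := ρ) (x := y) (fun U =>
      nil_of_cod (lin S htw) (pw H n₀ : Set E) (n := n) (pw_stb S H n₀ U.2.1) (pw_stb S H n₀ hW)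
        U.2.2.1 U.2.2.2 (fun z hz => Nil.mono subset_rfl
          (Set.singleton_subset_iff.2 U.1.zero_mem) (hn z hz)) y hy)
  refine Nil.mono subset_rfl (fun z hz => ?_) h1
  rw [Set.mem_iInter] at hz
  exact mem_radF.2 ⟨hz ⟨W, hW, le_rfl, ∅, by simp, le_sup_left⟩,
    fun U h1 h2 h3 => hz ⟨U, h1, h2, h3⟩⟩

theorem layers (S : SL D M E) (htw : ∀ e d, S.tw e d = d) (H : Subgroup E) (n₀ ρ n : ℕ)
    {W : Submodule D M} (hW : StbF (fun i : H => S.act i.1 ^ n₀) W)
    (hn : ∀ y ∈ W, Nil (fun g y => S.act g y) (pw H n₀ : Set E) {0} n y) (i : ℕ) :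
    ∀ y ∈ W, Nil (fun g y => S.act g y) (pw H n₀ : Set E)
      ((radF ρ (fun i : H => S.act i.1 ^ n₀))^[i] W : Submodule D M) (ρ * i) y := by
  induction i with
  | zero => exact fun y hy => hy
  | succ i ih =>
    intro y hy
    rw [Function.iterate_succ_apply', Nat.mul_succ]
    refine Nil.trans (Nil.mono subset_rfl (fun z hz => ?_) (ih y hy))
    exact layer S htw H n₀ ρ n (hW.iter ρ i) (fun u hu => hn u (iterF_le ρ i W hu)) z hz

theorem climb (S : SL D M E) (htw : ∀ e d, S.tw e d = d) {H K : Subgroup E} (hKH : K ≤ H)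
    (hc : ∀ h ∈ H, ∀ k ∈ K, h⁻¹ * k * h ∈ K) {N n : ℕ} {s : Finset E} (hs : s.card ≤ N)
    (hsH : ∀ g ∈ s, g ∈ H) (hcov : ∀ g ∈ H, ∃ t ∈ s, t⁻¹ * g ∈ K) {W : Submodule D M}
    (hW : ∀ g ∈ H, ∀ y ∈ W, S.act g y ∈ W)
    (hn : ∀ y ∈ W, Nil (fun g y => S.act g y) (H : Set E) {0} n y) (c : ℕ) :
    ∀ y ∈ W, Nil (fun g y => S.act g y) (K : Set E) {0} c y →
      Nil (fun g y => S.act g y) (H : Set E) {0} (N * c) y := by
  classical
  induction c with
  | zero => exact fun y _ hy => hy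
  | succ c ih =>
    intro y hy hyc
    obtain ⟨Z, hZ⟩ := exists_nilSub (lin S htw) (K : Set E) ⊥ c
    rw [Submodule.bot_coe] at hZ
    have hV : ∀ g ∈ H, ∀ z ∈ W ⊓ Z, S.act g z ∈ W ⊓ Z := fun g hg z hz =>
      ⟨hW g hg z hz.1, (hZ _).2 (nil_conj S (hc g hg) c z ((hZ z).1 hz.2))⟩
    let X : Submodule D M :=
      (W ⊓ Z) ⊔ Submodule.span D ((s.image fun t => S.act t y : Finset M) : Set M)
    have hX : ∀ g ∈ H, S.act g y ∈ X := by
      intro g hg
      obtain ⟨t, ht, hk⟩ := hcov g hg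
      have e : S.act g y = S.act t (S.act (t⁻¹ * g) y - y) + S.act t y := by
        rw [map_sub, sub_add_cancel, ← act_mul, mul_inv_cancel_left]
      rw [e]
      refine Submodule.add_mem_sup (hV t (hsH t ht) _
        ⟨W.sub_mem (hW _ (hKH hk) y hy) hy, (hZ _).2 (hyc _ hk)⟩) (Submodule.subset_span ?_)
      exact Finset.mem_coe.2 (Finset.mem_image_of_mem _ ht)
    have hXs : ∀ g ∈ H, ∀ z ∈ X, S.act g z ∈ X := by
      intro g hg
      have : X ≤ X.comap (lin S htw g) := by
        refine sup_le (fun z hz => Submodule.mem_sup_left (hV g hg z hz)) (Submodule.span_le.2 ?_)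
        intro z hz
        obtain ⟨t, ht, rfl⟩ := Finset.mem_image.1 (Finset.mem_coe.1 hz)
        show S.act g (S.act t y) ∈ X
        rw [← act_mul]
        exact hX _ (H.mul_mem hg (hsH t ht))
      exact fun z hz => this hz
    have hXW : X ≤ W := by
      refine sup_le inf_le_left (Submodule.span_le.2 ?_)
      intro z hz
      obtain ⟨t, ht, rfl⟩ := Finset.mem_image.1 (Finset.mem_coe.1 hz)
      exact hW t (hsH t ht) y hy
    have hyX : y ∈ X := by simpa only [RgBx.act_one] using hX 1 H.one_mem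
    have h1 := nil_of_cod (lin S htw) (H : Set E) (U := W ⊓ Z) (W := X) (ρ := N) (n := n) hV hXs
      le_sup_left ⟨_, Finset.card_image_le.trans hs, le_rfl⟩ (fun z hz => Nil.mono subset_rfl
        (Set.singleton_subset_iff.2 (W ⊓ Z).zero_mem) (hn z (hXW hz))) y hyX
    rw [Nat.mul_succ, add_comm]
    exact Nil.trans (Nil.mono subset_rfl (fun z hz => ih z hz.1 ((hZ z).1 hz.2)) h1)

end StaFx

open StaFx

theorem orbit_fg (S : SL D M E) (htw : ∀ e d, S.tw e d = d) (H : Subgroup E) (hH : H.FG) (n : ℕ)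
    (x : M) (hx : Nil (fun g y => S.act g y) (H : Set E) {0} n x) :
    ((S.comap H.subtype).gen {x}).FG := by
  obtain ⟨s, hs⟩ := hH
  induction n generalizing x with
  | zero =>
    have e : x = 0 := hx
    have : (S.comap H.subtype).gen {x} ≤ ⊥ :=
      gen_le _ (fun g y hy => by rw [(Submodule.mem_bot D).1 hy, map_zero]; exact zero_mem _)
        (by rw [e]; exact Set.singleton_subset_iff.2 (zero_mem _))
    rw [le_bot_iff.1 this]
    exact Submodule.fg_bot
  | succ n ih =>
    have hsH : ∀ g ∈ s, g ∈ H := fun g hg => hs ▸ Subgroup.subset_closure hg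
    let T := S.comap H.subtype
    let N : Submodule D M := s.sup fun g => T.gen {S.act g x - x}
    have hN : N.FG := Submodule.fg_finset_sup s _ fun g hg => ih _ (hx g (hsH g hg))
    have hNi : T.Inv N := Finset.sup_induction (p := T.Inv)
      (fun g y hy => by rw [(Submodule.mem_bot D).1 hy, map_zero]; exact zero_mem _)
      (fun _ hU _ hV => inv_sup T hU hV) fun g _ => gen_inv T _
    have key : ∀ g ∈ Subgroup.closure (s : Set E), S.act g x - x ∈ N := by
      intro g hg
      induction hg using Subgroup.closure_induction with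
      | mem y hy =>
        exact (Finset.le_sup (f := fun g => T.gen {S.act g x - x}) hy : _ ≤ N)
          (subset_gen T _ rfl)
      | one => rw [RgBx.act_one, sub_self]; exact zero_mem _
      | mul y z hy _ h1 h2 =>
        have e : S.act (y * z) x - x = S.act y (S.act z x - x) + (S.act y x - x) := by
          rw [act_mul, map_sub]; abel
        rw [e]
        exact N.add_mem (hNi ⟨y, hs ▸ hy⟩ _ h2) h1
      | inv y hy h1 =>
        have e : S.act y⁻¹ x - x = - S.act y⁻¹ (S.act y x - x) := by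
          rw [map_sub, RgBx.act_inv]; abel
        rw [e]
        exact N.neg_mem (hNi ⟨y⁻¹, H.inv_mem (hs ▸ hy)⟩ _ h1)
    have hx0 : x ∈ T.gen {x} := subset_gen T _ rfl
    have e : T.gen {x} = Submodule.span D {x} ⊔ N := by
      refine le_antisymm (Submodule.span_le.2 ?_) (sup_le ?_ (Finset.sup_le fun g hg => ?_))
      · rintro _ ⟨g, y, rfl, rfl⟩
        have e1 : T.act g y = y + (S.act g.1 y - y) := by
          rw [add_sub_cancel]; rfl
        rw [e1]
        exact Submodule.add_mem_sup (Submodule.mem_span_singleton_self y) (key g.1 (hs ▸ g.2))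
      · exact Submodule.span_le.2 (Set.singleton_subset_iff.2 hx0)
      · exact gen_le T (gen_inv T _) (Set.singleton_subset_iff.2
          ((T.gen {x}).sub_mem (gen_inv T _ ⟨g, hsH g hg⟩ x hx0) hx0))
    show (T.gen {x}).FG
    rw [e]
    exact (Submodule.fg_span_singleton x).sup hN

theorem stu_of_bdF (S : SL D M E) (htw : ∀ e d, S.tw e d = d) {n : ℕ} (h : Poly E n)
    (hB : BdF S ⊤) : Stu (fun g y => S.act g y) := by
  obtain ⟨n₀, l, ρ, h0, hB⟩ := hB
  obtain ⟨N, hN⟩ := pw_index h n₀ h0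
  refine ⟨N * (ρ * l), fun H k x hx => ?_⟩
  obtain ⟨s, hs, hsH, hcov⟩ := hN H
  let T := S.comap H.subtype
  have hWi : T.Inv (T.gen {x}) := gen_inv T _
  have hW : StbF (fun i : H => S.act i.1) (T.gen {x}) := fun i => hWi.stb i
  have hn : ∀ y ∈ T.gen {x}, Nil (fun g y => S.act g y) (H : Set E) {0} k y := by
    obtain ⟨Z, hZ⟩ := exists_nilSub (lin S htw) (H : Set E) ⊥ k
    rw [Submodule.bot_coe] at hZ
    have : T.gen {x} ≤ Z := gen_le T (fun g y hy => (hZ _).2 (nil_conj S (fun u hu =>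
      H.mul_mem (H.mul_mem (H.inv_mem g.2) hu) g.2) k y ((hZ y).1 hy)))
      (Set.singleton_subset_iff.2 ((hZ x).2 hx))
    exact fun y hy => (hZ y).1 (this hy)
  have hb := hB H Subtype.val (T.gen {x}) le_top
    (orbit_fg S htw H ((pc_of_poly h).2 H) k x hx) hW
  have hx0 : x ∈ T.gen {x} := subset_gen T _ rfl
  have h1 := layers S htw H n₀ ρ k (hW.pow n₀)
    (fun y hy => Nil.mono (pw_le H n₀) subset_rfl (hn y hy)) l x hx0
  rw [hb, Submodule.bot_coe] at h1
  exact climb S htw (pw_le H n₀) (fun g hg => pw_conj H n₀ hg) hs hsH hcov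
    (fun g hg y hy => hWi ⟨g, hg⟩ y hy) hn _ x hx0 h1

end Pool.Agent.Lib.MP_721660_al.Hs
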