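import Pool.Agent.Lib.MP_721660_al.Hs.Cl4
import Pool.Agent.Lib.MP_721660_al.Hs.Ind
import Pool.Agent.Lib.MP_721660_al.Ht.Cr1
import Pool.Agent.Lib.MP_721660_al.Ht.Cr4
import Pool.Agent.Lib.MP_721660_al.Ht.Del
import Pool.Agent.Lib.MP_721660_al.Ht.Fin2
import Pool.Agent.Lib.MP_721660_al.Ht.Iso
import Pool.Agent.Lib.MP_721660_al.Ht.Noe

set_option autoImplicit false

namespace Pool.Agent.Lib.MP_721660_al.Hs
open Ht

variable {D M E : Type} [DivisionRing D] [AddCommGroup M] [Module D M] [Group E]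
  {Γ : Type} [Group Γ] {π : E →* Γ} {A : Subgroup E} {m : ℕ} {β : E → Zm m}
  {φ : E →* (Zm m ≃ₗ[ℤ] Zm m)}

namespace TorFx

theorem finish {n : ℕ} (h : Poly Γ n) (S : SL D M E) (hP : Plinth π A m β φ)
    (S' : SL (S.rg (A : Set E)) M E) (hS : S'.act = S.act) {x : M}
    (hx : Crit (S.rg (A : Set E)) x) (H : Subgroup E)
    (hH : ∀ e, e ∈ H ↔ Sim (S.rg (A : Set E)) x (S.act e x))
    (hB : BdF (S.comap H.subtype) ((S.comap H.subtype).gen {x})) :
    ∃ N : Submodule D M, N ≠ ⊥ ∧ S.Inv N ∧ BdF S N := by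
  obtain ⟨hAH, hI⟩ := indp_of_crit S A S' hS hx H hH
  have hiso : Isol H := isol h π H (hP.ker_le.trans hAH)
  refine ⟨S.gen ((S.comap H.subtype).gen {x} : Set M), ?_, gen_inv S _,
    bdF_induced S H _ (gen_inv _ _) hI hiso hB⟩
  intro hb
  have h1 : x ∈ (S.comap H.subtype).gen {x} := subset_gen _ _ (Set.mem_singleton x)
  have h2 : x ∈ S.gen ((S.comap H.subtype).gen {x} : Set M) := subset_gen S _ h1
  rw [hb] at h2
  exact hx.1 ((Submodule.mem_bot D).1 h2)

end TorFx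

theorem torsionF_case {n : ℕ} (IH : ∀ n' < n, MainF n') (h : Poly Γ n) (S : SL D M E)
    (hP : Plinth π A m β φ) (hs : S.Scal π.ker) (u : Zm m → E)
    (hu : ∀ b, u b ∈ A ∧ β (u b) = b) (hT : ¬ S.TFree u) :
    ∃ N : Submodule D M, N ≠ ⊥ ∧ S.Inv N ∧ BdF S N := by
  classical
  unfold SL.TFree at hT
  push Not at hT
  obtain ⟨c, x1, hx, hc, hx1⟩ := hT
  obtain ⟨S', hS⟩ := exists_overT S A hP.normal
  haveI := noeth_rg S π h hs A
  obtain ⟨x0, h0, t, ht⟩ := crit_exists (T := S.rg (A : Set E)) x1 hx1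
  obtain ⟨H, hH⟩ := exists_stab S' h0
  rw [hS] at hH
  by_cases hi : H.index = 0
  · refine TorFx.finish h S hP S' hS h0 H hH ?_
    obtain ⟨hAH, -⟩ := indp_of_crit S A S' hS h0 H hH
    obtain ⟨n', hn', hp'⟩ := poly_inf_index h π H (hP.ker_le.trans hAH) hi
    have hs' : (S.comap H.subtype).Scal (π.subgroupMap H).ker := by
      intro e he
      refine hs (e : E) ?_
      have := congrArg Subtype.val (MonoidHom.mem_ker.1 he)
      exact this
    have := mainF_rel (IH n' hn') (S.comap H.subtype) (π.subgroupMap H) hp' hs' {x0}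
    simpa using this
  · haveI : H.FiniteIndex := ⟨hi⟩
    have h1 := delta_empty S hP hs S' hS u hu c hc x1 hx h0 t ht H hH
    obtain ⟨r, hr, hall⟩ := all_chi S hP hs h0 h1
    have hfg := fin_dim S hP hs hall
    obtain ⟨t', ht', hsim, hfg'⟩ := exists_simple _ _ (r • x0) hr hfg
    have hx' : Crit (S.rg (A : Set E)) (t' • r • x0) := (h0.smul r hr).smul t' ht'
    obtain ⟨H', hH'⟩ := exists_stab S' hx'
    rw [hS] at hH'
    haveI := hsim
    exact TorFx.finish h S hP S' hS hx' H' hH' (bdF_simple IH h S hP S' hS _ hfg' H' hH')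

end Pool.Agent.Lib.MP_721660_al.Hs
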