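import Pool.Agent.Lib.MP_721660_al.Hs.Per
import Pool.Agent.Lib.MP_721660_al.Ht.Zin

set_option autoImplicit false

namespace Pool.Agent.Lib.MP_721660_al.Hs
open Ht

variable {K L B V ι : Type} [DivisionRing K] [DivisionRing L] [AddCommGroup B] [AddCommGroup V]
  [Module L V] [Module K V] {j : K →+* L} {u : B → L} {σ : ι → (L ≃+* L)}
  {φ : ι → (B ≃ₗ[ℤ] B)} {τ : ι → (V ≃ₗ[ℤ] V)}

open Zinx in
theorem posF_bot (h : FC j u) (ht : ∀ i, Tw j u (σ i) (φ i)) (hc : Cmp j V)
    (hτ : ∀ i, Semi (σ i) (τ i)) (χ : B →+ ℝ) (Z : Submodule K V) (hfg : Z.FG) (hZ : SmpF τ Z) :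
    ∀ v ∈ Z, v ∈ usp K u {b | (∀ i, φ i b = b) ∧ 0 < χ b} (Z : Set V) → v = 0 := by
  intro v hv hv'
  have hst : StbF τ (Z ⊓ usp K u {b | (∀ i, φ i b = b) ∧ 0 < χ b} (Z : Set V)) :=
    hZ.2.1.inf fun i => stb_usp h.toCR (ht i) hc (hτ i) (fun b hb => hb.1 i) (hZ.2.1 i)
  rcases hZ.2.2 _ hst inf_le_left with e | e
  · have h1 : v ∈ Z ⊓ usp K u {b | (∀ i, φ i b = b) ∧ 0 < χ b} (Z : Set V) := ⟨hv, hv'⟩
    rwa [e, Submodule.mem_bot] at h1
  · have hle : Z ≤ usp K u {b | (∀ i, φ i b = b) ∧ 0 < χ b} (Z : Set V) := e.ge.trans inf_le_right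
    obtain ⟨Ψ, hΨ⟩ := sup_lemma h hc Z hfg
    obtain ⟨s, hs⟩ := hfg
    obtain ⟨ε, h0, hε⟩ := eps_fin s (fun x ε => x ∈ usp K u {b | ε ≤ χ b} (Z : Set V))
      (fun _ a b e1 e2 => usp_mono (fun c (hc' : a ≤ χ c) => e1.trans hc') subset_rfl e2)
      (fun x hx => eps_mem h.toCR hc χ (fun b hb => hb.2) Z
        (hle (hs ▸ Submodule.subset_span hx)))
    have h1 : Z ≤ usp K u {b | ε ≤ χ b} (Z : Set V) := by
      intro x hx
      rw [← hs] at hx
      exact Submodule.span_le.2 (fun y hy => hε y hy) hx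
    have h2 : ∀ k : ℕ, Z ≤ usp K u {b | ((k : ℝ) + 1) * ε ≤ χ b} (Z : Set V) := by
      intro k
      induction k with
      | zero => simpa using h1
      | succ k ih =>
        refine h1.trans ((usp_mono subset_rfl ih).trans (usp_usp h.toCR hc _ ?_))
        intro a ha b hb
        have ha' : ε ≤ χ a := ha
        have hb' : ((k : ℝ) + 1) * ε ≤ χ b := hb
        show (((k + 1 : ℕ) : ℝ) + 1) * ε ≤ χ (a + b)
        rw [map_add]
        push_cast
        linarith
    obtain ⟨M, hM⟩ := (Ψ.finite_toSet.image χ).bddAbove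
    obtain ⟨k, hk⟩ := exists_nat_gt (M / ε)
    rw [div_lt_iff₀ h0] at hk
    refine hΨ v hv (usp_mono (fun b hb hb' => ?_) subset_rfl (h2 k hv))
    have h3 : χ b ≤ M := hM ⟨b, hb', rfl⟩
    have h4 : ((k : ℝ) + 1) * ε ≤ χ b := hb
    linarith

open Zinx in
/-- The translates of a minimal stable subspace are independent. -/
theorem ZinFx.free (h : FC j u) (ht : ∀ i, Tw j u (σ i) (φ i)) (hf : ∀ i, FO (φ i))
    (hc : Cmp j V) (hτ : ∀ i, Semi (σ i) (τ i))
    (χ : B →+ ℝ) (hχ : Function.Injective χ) (Z : Submodule K V) (hfg : Z.FG) (hZ : SmpF τ Z)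
    (F : Finset B) (y : B → V) (hy : ∀ b ∈ F, y b ∈ Z) (h0 : ∑ b ∈ F, u b • y b = 0) :
    ∀ b ∈ F, y b = 0 := by
  classical
  by_contra hne
  push Not at hne
  obtain ⟨b1, hb1, hb1'⟩ := hne
  obtain ⟨a, ha, hmin⟩ := (F.filter fun b => y b ≠ 0).exists_min_image χ
    ⟨b1, Finset.mem_filter.2 ⟨hb1, hb1'⟩⟩
  obtain ⟨haF, hay⟩ := Finset.mem_filter.1 ha
  have h1 : y a + ∑ b ∈ F.erase a, (u a)⁻¹ • (u b • y b) = 0 := by
    have h2 := congrArg (fun w => (u a)⁻¹ • w) h0
    simp only [smul_zero] at h2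
    rwa [← Finset.add_sum_erase _ _ haF, smul_add, smul_smul, inv_mul_cancel₀ (h.ne a), one_smul,
      Finset.smul_sum] at h2
  rw [← Finset.sum_filter_add_sum_filter_not (F.erase a) (fun b => ∀ i, φ i (-a + b) = -a + b),
    ← add_assoc] at h1
  have h3 : ∑ b ∈ (F.erase a).filter (fun b => ∀ i, φ i (-a + b) = -a + b), (u a)⁻¹ • (u b • y b) ∈
      usp K u {b | (∀ i, φ i b = b) ∧ 0 < χ b} (Z : Set V) := by
    refine Submodule.sum_mem _ fun b hb => ?_
    obtain ⟨hb2, hb3⟩ := Finset.mem_filter.1 hb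
    obtain ⟨hb4, hb5⟩ := Finset.mem_erase.1 hb2
    by_cases hyb : y b = 0
    · rw [hyb, smul_zero, smul_zero]; exact Submodule.zero_mem _
    · refine shift_mem h.toCR hc (P := {b | (∀ i, φ i b = b) ∧ 0 < χ b}) _ a b ⟨hb3, ?_⟩ (hy b hb5)
      have h4 := hmin b (Finset.mem_filter.2 ⟨hb5, hyb⟩)
      have h5 : χ a ≠ χ b := fun e => hb4 (hχ e).symm
      have h6 := lt_of_le_of_ne h4 h5
      rw [map_add, map_neg]
      linarith
  have h4 : ∑ b ∈ (F.erase a).filter (fun b => ¬ ∀ i, φ i (-a + b) = -a + b), (u a)⁻¹ • (u b • y b) ∈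
      usp K u {b | ¬ ∀ i, φ i b = b} (Z : Set V) :=
    Submodule.sum_mem _ fun b hb => shift_mem h.toCR hc _ a b (Finset.mem_filter.1 hb).2
      (hy b (Finset.mem_erase.1 (Finset.mem_filter.1 hb).1).2)
  have h5 := dirF_lemma h ht hf hc hτ Z hfg hZ.2.1 _
    (Submodule.add_mem _ (self_mem h.toCR hc (P := {b | ∀ i, φ i b = b}) (fun i => map_zero (φ i)) Z (hy a haF))
      (usp_mono (fun b hb => hb.1) subset_rfl h3))
    (by rw [eq_neg_of_add_eq_zero_left h1]; exact Submodule.neg_mem _ h4)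
  refine hay (posF_bot h ht hc hτ χ Z hfg hZ _ (hy a haF) ?_)
  rw [eq_neg_of_add_eq_zero_left h5]
  exact Submodule.neg_mem _ h3

theorem smpF_cod (h : FC j u) (ht : ∀ i, Tw j u (σ i) (φ i)) (hf : ∀ i, FO (φ i))
    (hc : Cmp j V) (hτ : ∀ i, Semi (σ i) (τ i)) (χ : B →+ ℝ) (hχ : Function.Injective χ)
    (Z : Submodule K V) (hfg : Z.FG) (hZ : SmpF τ Z) {ρ : ℕ} (hd : Dim L ρ (Z : Set V)) :
    Cod ρ ⊥ Z := by
  classical
  have hfin : Module.Finite K Z := Module.Finite.iff_fg.2 hfg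
  let bs := Module.finBasis K Z
  obtain ⟨z, hz⟩ : ∃ z : Fin (Module.finrank K Z) → V, z = fun i => (bs i : V) := ⟨_, rfl⟩
  have hzZ : ∀ i, z i ∈ Z := fun i => by rw [hz]; exact (bs i).2
  have hK : LinearIndependent K z := by
    rw [hz]
    exact bs.linearIndependent.map' Z.subtype Z.ker_subtype
  have hL : LinearIndependent L z := by
    rw [Fintype.linearIndependent_iff]
    intro g hg i0
    obtain ⟨t, ht0, hs⟩ := common_left h Finset.univ g
    choose s hs using fun i => hs i (Finset.mem_univ i)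
    choose k' hk' using h.nr
    have hev : ∀ i, ev j u (s i) = ∑ b ∈ Finset.univ.biUnion (fun i => (s i).support),
        u b * j (k' b (s i b)) := by
      intro i
      unfold ev
      rw [Finsupp.sum_of_support_subset _
        (Finset.subset_biUnion_of_mem (fun i => (s i).support) (Finset.mem_univ i)) _
        (fun b _ => by rw [map_zero, zero_mul])]
      exact Finset.sum_congr rfl fun b _ => hk' b _
    have h0 : ∑ b ∈ Finset.univ.biUnion (fun i => (s i).support),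
        u b • ∑ i, k' b (s i b) • z i = 0 := by
      have h1 := congrArg (fun w => ev j u t • w) hg
      simp only [smul_zero, Finset.smul_sum, smul_smul, hs, hev, Finset.sum_smul] at h1
      rw [Finset.sum_comm] at h1
      rw [← h1]
      refine Finset.sum_congr rfl fun b _ => ?_
      rw [Finset.smul_sum]
      exact Finset.sum_congr rfl fun i _ => by rw [hc, smul_smul]
    have h2 := ZinFx.free h ht hf hc hτ χ hχ Z hfg hZ _ _
      (fun b _ => Submodule.sum_mem _ fun i _ => Z.smul_mem _ (hzZ i)) h0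
    have h3 : ev j u (s i0) = 0 := by
      rw [hev]
      refine Finset.sum_eq_zero fun b hb => ?_
      rw [Fintype.linearIndependent_iff.1 hK _ (h2 b hb) i0, map_zero, mul_zero]
    rw [← hs] at h3
    exact (mul_eq_zero.1 h3).resolve_left fun e => ht0 (h.ind t e)
  obtain ⟨w, hw, hw'⟩ := hd
  have hcard := linearIndependent_le_span_aux' z hL (w : Set V)
    (by rintro _ ⟨i, rfl⟩; exact hw' (hzZ i))
  simp only [Fintype.card_fin, Finset.coe_sort_coe, Fintype.card_coe] at hcard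
  refine ⟨Finset.univ.image z, ?_, ?_⟩
  · exact Finset.card_image_le.trans (by simpa using hcard.trans hw)
  · intro x hx
    refine Submodule.mem_sup_right ?_
    have h4 : x = ∑ i, bs.repr ⟨x, hx⟩ i • z i := by
      have h5 := congrArg (fun w : Z => (w : V)) (bs.sum_repr ⟨x, hx⟩)
      simp only [Submodule.coe_sum, Submodule.coe_smul] at h5
      rw [hz]
      exact h5.symm
    rw [h4]
    exact Submodule.sum_mem _ fun i _ => Submodule.smul_mem _ _
      (Submodule.subset_span (by simp))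

end Pool.Agent.Lib.MP_721660_al.Hs
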